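import Pool.Agent.Helper14.EA.EA11
import Pool.Agent.Helper31.EK.K5

/-!
# EA12: one step, from orbits of size at most `s` to orbits of size at most `s'` (all arities)
-/

set_option autoImplicit false
set_option linter.unusedSectionVars false

namespace Pool.Agent.Helper6.EA

open FirstOrder Pool.Agent.Helper20.Spectra Pool.Agent.Helper31.QD Pool.Agent.Helper38.MC
  Pool.Agent.Helper58.QD Pool.Agent.Helper40.MC Pool.Agent.Helper6.MC
open Pool.Agent.Helper12.EK (Gr Ball Cmp mem_Cmp mem_Ball hit_ball)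

variable {S : Type} {ar : S → ℕ} {V : Type} [Fintype V]

/-- a component is a ball -/
private lemma Cmp_eq_Ball85 [DecidableEq V] (E : V → V → Prop) (x : V) : Cmp E x = Ball E x (Fintype.card V) := by
  ext y
  rw [mem_Cmp, mem_Ball]
  refine ⟨fun h => ⟨h, ?_⟩, fun h => h.1⟩
  obtain ⟨p, hp⟩ := h.exists_path_of_dist
  rw [← hp.2]
  exact (hp.1.length_lt).le

private lemma oA_mono85 (R : Interp S ar V) {A A' : Finset V} (hA : A ⊆ A') (x : V) : oA R A' x ⊆ oA R A x := by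
  intro y hy
  obtain ⟨g, hg, h⟩ := mem_orb'.1 hy
  refine mem_orb'.2 ⟨g, ?_, h⟩
  rw [mem_GS] at hg ⊢
  exact ⟨hg.1, fun a ha => hg.2 a (hA ha)⟩

/-- EA9 -/
def StmtRounds9 (r : ℕ) : Prop := ∀ (S : Type) (ar : S → ℕ), (∀ s, ar s ≤ r) → ∀ (V : Type) [Fintype V]
    (R : Interp S ar V) (A₀ : Finset V) (s l q : ℕ), 1 ≤ q → (∀ x, (oA R A₀ x).card ≤ s) →
    s * (cB r (dE r l q r)) ^ 2 * (r * l + 1) ^ r * q * (q ^ r - 1) ^ l ≤ (q ^ r) ^ l →
    ∃ (A : Finset V) (E : V → V → Prop), A₀ ⊆ A ∧ q * A.card ≤ q * A₀.card + r * (r + 3) * Fintype.card V ∧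
      Gd r R A E r (dE r l q r) (tE r l q r)

/-- EA10 -/
def StmtSmall10 (r : ℕ) : Prop := ∀ (S : Type) (ar : S → ℕ), (∀ s, ar s ≤ r) → ∀ (V : Type) [Fintype V]
    [DecidableEq V] (R : Interp S ar V) (A : Finset V) (E : V → V → Prop) (Δ T : ℕ), Gd r R A E r Δ T →
    ∀ (x : V) (k D : ℕ), (Cmp E x).card ≤ k → k * (D + T + 3 * r + 3) < (oA R A x).card →
      ∃ t, 1 ≤ t ∧ t ≤ k ∧ FamR R D t

/-- EA12 over EA9 and EA10: one step -/
theorem stepR_of {r : ℕ} (h9 : StmtRounds9 r) (h10 : StmtSmall10 r) :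
    ∀ (S : Type) (ar : S → ℕ), (∀ s, ar s ≤ r) → ∀ (V : Type)
    [Fintype V] (R : Interp S ar V) (A₀ : Finset V) (s s' q l M₀ D : ℕ), 1 ≤ q →
    (∀ x, (oA R A₀ x).card ≤ s) →
    s * (cB r (dE r l q r)) ^ 2 * (r * l + 1) ^ r * q * (q ^ r - 1) ^ l ≤ (q ^ r) ^ l →
    (q - 1) ^ (M₀ + 1) * q ≤ q ^ (M₀ + 1) →
    ((M₀ + 1) * (dE r l q r + 1) ^ 2) ^ (Nat.log 2 M₀ + 1) ≤ s' →
    M₀ * (D + tE r l q r + 3 * r + 3) ≤ s' → (∀ t, 1 ≤ t → t ≤ M₀ → ¬ FamR R D t) →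
    ∃ A, A₀ ⊆ A ∧ q * A.card ≤ q * A₀.card + (r * (r + 3) + 2) * Fintype.card V ∧
      ∀ x, (oA R A x).card ≤ s' := by
  classical
  intro S ar har V _ R A₀ s s' q l M₀ D hq hs hl hM h1 h2 hD
  obtain ⟨A, E, hA, hAq, hG⟩ := h9 S ar har V R A₀ s l q hq hs hl
  obtain ⟨B, hB, hball⟩ := hit_ball E q M₀ hq hM
  have hball' : ∀ z ρ, (∀ y ∈ Ball E z ρ, y ∉ A ∪ B) → (Ball E z ρ).card ≤ M₀ :=
    fun z ρ h => hball z ρ (fun y hy hyB => h y hy (Finset.mem_union_right _ hyB))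
  refine ⟨A ∪ B, hA.trans Finset.subset_union_left, ?_, fun x => ?_⟩
  · have := Finset.card_union_le A B
    calc q * (A ∪ B).card ≤ q * (A.card + B.card) := Nat.mul_le_mul_left _ this
      _ = q * A.card + q * B.card := by ring
      _ ≤ (q * A₀.card + r * (r + 3) * Fintype.card V) + 2 * Fintype.card V := Nat.add_le_add hAq hB
      _ = _ := by ring
  · by_cases hx : ∃ a ∈ A ∪ B, a ∈ Cmp E x
    · refine le_trans ?_ h1
      exact doublingG R Finset.subset_union_left E hG.symm (fun x => by convert hG.deg x) hG.inv hball' hx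
    · push Not at hx
      have h3 : (Cmp E x).card ≤ M₀ := by
        rw [Cmp_eq_Ball85]
        apply hball'
        intro y hy hyA
        rw [← Cmp_eq_Ball85] at hy
        exact hx y hyA hy
      refine le_trans (Finset.card_le_card (oA_mono85 R Finset.subset_union_left x)) (le_trans ?_ h2)
      by_contra hcon
      rw [not_le] at hcon
      obtain ⟨t, ht, htk, hF⟩ := h10 S ar har V R A E _ _ hG x M₀ D h3 hcon
      exact hD t ht htk hF

end Pool.Agent.Helper6.EA
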