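import Pool.Agent.Helper51.EA.Defs
import Pool.Agent.Helper5.RS.DDs

/-!
# Block EA-D1: all points of the grids `jj / 2 ^ (a + ρ)`

`far_a` with `δ = 1/2`, `far_b` with its `κ`, `near_unif2`; `Far (2^(a+ρ)) x D → Far (2^a) x (D/2^ρ)`,
`DD_sum2` with `Y = Λ^C`, `C = C1 + ρ + 16`.
-/

set_option autoImplicit false

namespace Pool.Agent.Helper51.EA

open Finset Pool.Agent.Helper5.RM Pool.Agent.Helper5.RS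

private theorem sq_le85 (i : ℕ) (hi : 4 ≤ i) : i ^ 2 ≤ 2 ^ i := by
  induction i, hi using Nat.le_induction with
  | base => norm_num
  | succ n hn ih => rw [pow_succ 2 n]; nlinarith

/-- `tg N` is at least half of the square root of `2 ^ a * 2 ^ i`. -/
theorem tg_ge85 {i a N : ℕ} (ha : 2 ^ i ≤ a) (hN : 2 ^ a ≤ N) :
    1 / 2 * Real.sqrt (2 ^ a * 2 ^ i) ≤ tg N := by
  unfold tg
  have h0 : (0 : ℝ) < 2 ^ a := by positivity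
  have h1 : (2 : ℝ) ^ a ≤ N := by exact_mod_cast hN
  have h2 : (2 : ℝ) ^ i ≤ a := by exact_mod_cast ha
  have h3 : (0 : ℝ) < (2 : ℝ) ^ i := by positivity
  have hlog2 : (0.6931 : ℝ) < Real.log 2 := by
    have := Real.log_two_gt_d9
    linarith
  have h4 : (2 : ℝ) ^ i * 0.6931 ≤ Real.log N := by
    have h5 : Real.log ((2 : ℝ) ^ a) ≤ Real.log N := Real.log_le_log h0 h1
    rw [Real.log_pow] at h5
    have h6 : (2 : ℝ) ^ i * 0.6931 ≤ a * Real.log 2 :=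
      mul_le_mul h2 hlog2.le (by norm_num) (by positivity)
    linarith
  have hpi : (6 / 10 : ℝ) ≤ 6 / Real.pi ^ 2 := by
    refine div_le_div_of_nonneg_left (by norm_num) (by positivity) ?_
    have h7 := Real.pi_lt_d2
    have h8 := Real.pi_pos
    nlinarith
  have h9 : (2 : ℝ) ^ a * ((2 : ℝ) ^ i * 0.6931) ≤ N * Real.log N :=
    mul_le_mul h1 h4 (by positivity) (by positivity)
  have h10 : 1 / 2 * Real.sqrt (2 ^ a * 2 ^ i) = Real.sqrt (1 / 4 * (2 ^ a * 2 ^ i)) := by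
    rw [Real.sqrt_mul (by norm_num : (0 : ℝ) ≤ 1 / 4)]
    congr 1
    rw [show (1 / 4 : ℝ) = (1 / 2) ^ 2 by norm_num, Real.sqrt_sq (by norm_num)]
  rw [h10]
  refine Real.sqrt_le_sqrt ?_
  calc (1 / 4 : ℝ) * (2 ^ a * 2 ^ i) ≤ 6 / 10 * ((2 : ℝ) ^ a * ((2 : ℝ) ^ i * 0.6931)) := by
        have : (0 : ℝ) < 2 ^ a * 2 ^ i := by positivity
        nlinarith
    _ ≤ 6 / Real.pi ^ 2 * (N * Real.log N) :=
        mul_le_mul hpi h9 (by positivity) (by positivity)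

/-- A point which is far for the grid of size `2 ^ (a + ρ)` is far for the grid of size `2 ^ a`. -/
theorem far_scale85 {a ρ : ℕ} {x D : ℝ} (h : Far (2 ^ (a + ρ)) x D) : Far (2 ^ a) x (D / 2 ^ ρ) := by
  intro m hm
  have h1 := h m hm
  have h2 : (0 : ℝ) < 2 ^ ρ := by positivity
  have h3 : (1 : ℝ) ≤ 2 ^ ρ := one_le_pow₀ (by norm_num)
  rw [div_le_iff₀ h2]
  push_cast at h1 ⊢
  have h4 : (m : ℝ) ≤ m * 2 ^ ρ := le_mul_of_one_le_right (by positivity) h3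
  calc D ≤ m + 2 ^ (a + ρ) * nd (m * x) := h1
    _ ≤ m * 2 ^ ρ + 2 ^ (a + ρ) * nd (m * x) := by linarith
    _ = (m + 2 ^ a * nd (m * x)) * 2 ^ ρ := by ring

/-- The points of large complexity. -/
theorem far_unif85
    (hA : ∀ δ : ℝ, 0 < δ → ∃ (κ : ℝ) (C1 i0 : ℕ), 0 < κ ∧ ∀ i : ℕ, i0 ≤ i → ∀ a : ℕ, 2 ^ i ≤ a →
      a < 2 * 2 ^ i → ∀ x D : ℝ, Far (2 ^ a) x D → ((2 : ℝ) ^ i) ^ C1 ≤ D → D ≤ ((2 : ℝ) ^ a) ^ κ →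
      pr (PP (2 ^ (2 * 2 ^ i))) (fun T => ∃ N : ℕ, 2 ^ a ≤ N ∧ N ≤ 2 ^ (a + 1) ∧
        δ * Real.sqrt (2 ^ a * 2 ^ i) < ‖SN N T x‖) ≤ 4 * D ^ (-(17 / 8) : ℝ))
    (hB : ∀ κ δ : ℝ, 0 < κ → 0 < δ → ∃ i0 : ℕ, ∀ i : ℕ, i0 ≤ i → ∀ a : ℕ, 2 ^ i ≤ a →
      a < 2 * 2 ^ i → ∀ x D : ℝ, Far (2 ^ a) x D → ((2 : ℝ) ^ a) ^ κ ≤ D → D ≤ 2 ^ a →
      pr (PP (2 ^ (2 * 2 ^ i))) (fun T => ∃ N : ℕ, 2 ^ a ≤ N ∧ N ≤ 2 ^ (a + 1) ∧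
        (1 + δ) * tg N < ‖SN N T x‖) ≤ 4 * D ^ (-(17 / 8) : ℝ) + ((2 : ℝ) ^ a) ^ (-(1 + δ / 4)))
    (δ : ℝ) (hδ : 0 < δ) (ρ : ℕ) : ∃ (C i0 : ℕ) (K : ℝ), 0 < K ∧ ∀ i : ℕ, i0 ≤ i →
    pr (PP (2 ^ (2 * 2 ^ i))) (fun T => ∃ a jj N : ℕ, 2 ^ i ≤ a ∧ a < 2 * 2 ^ i ∧ jj < 2 ^ (a + ρ) ∧
      ((2 : ℝ) ^ i) ^ C ≤ DD (2 ^ (a + ρ)) ((jj : ℝ) / (2 ^ (a + ρ) : ℕ)) ∧
      2 ^ a ≤ N ∧ N ≤ 2 ^ (a + 1) ∧ (1 + δ) * tg N < ‖SN N T ((jj : ℝ) / (2 ^ (a + ρ) : ℕ))‖) ≤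
      K / (2 : ℝ) ^ i := by
  classical
  obtain ⟨κ, C1, i1, hκ, hfa⟩ := hA (1 / 2) (by norm_num)
  obtain ⟨i2, hfb⟩ := hB κ δ hκ hδ
  obtain ⟨i3, hi3⟩ := exists_nat_gt (8 / δ)
  refine ⟨C1 + ρ + 16, max (max i1 i2) (max i3 4), 600 * ((2 : ℝ) ^ ρ) ^ (17 / 8 : ℝ) + 2 ^ ρ,
    by positivity, fun i hi => ?_⟩
  have hi1 : i1 ≤ i := (le_max_left _ _).trans ((le_max_left _ _).trans hi)
  have hi2 : i2 ≤ i := (le_max_right _ _).trans ((le_max_left _ _).trans hi)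
  have hi3' : i3 ≤ i := (le_max_left _ _).trans ((le_max_right _ _).trans hi)
  have hi4 : 4 ≤ i := (le_max_right _ _).trans ((le_max_right _ _).trans hi)
  set S : Finset ℕ := PP (2 ^ (2 * 2 ^ i)) with hS
  set Y : ℝ := ((2 : ℝ) ^ i) ^ (C1 + ρ + 16) with hYdef
  have h2i : (1 : ℝ) ≤ (2 : ℝ) ^ i := one_le_pow₀ (by norm_num)
  have h2i2 : (2 : ℝ) ≤ (2 : ℝ) ^ i := by
    calc (2 : ℝ) = 2 ^ 1 := (pow_one 2).symm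
      _ ≤ 2 ^ i := pow_le_pow_right₀ (by norm_num) (by omega)
  have h2i0 : (0 : ℝ) < (2 : ℝ) ^ i := by positivity
  have hY1 : 1 ≤ Y := one_le_pow₀ h2i
  have hY0 : 0 < Y := by linarith
  have hρ0 : (0 : ℝ) < 2 ^ ρ := by positivity
  -- the event at one point
  set Q : ℕ → ℕ → Finset ℕ → Prop := fun a jj T => ∃ N : ℕ, 2 ^ a ≤ N ∧ N ≤ 2 ^ (a + 1) ∧
      (1 + δ) * tg N < ‖SN N T ((jj : ℝ) / (2 ^ (a + ρ) : ℕ))‖ with hQ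
  have hYpow : Y ^ (-(1 / 8) : ℝ) ≤ 1 / ((2 : ℝ) ^ i) ^ 2 := by
    have h1 : ((2 : ℝ) ^ i) ^ 16 ≤ Y := pow_le_pow_right₀ h2i (by omega)
    have h2 : Y ^ (-(1 / 8) : ℝ) ≤ (((2 : ℝ) ^ i) ^ 16) ^ (-(1 / 8) : ℝ) :=
      Real.rpow_le_rpow_of_nonpos (by positivity) h1 (by norm_num)
    refine h2.trans (le_of_eq ?_)
    rw [← Real.rpow_natCast, ← Real.rpow_mul h2i0.le]
    rw [show (((16 : ℕ) : ℝ) * (-(1 / 8) : ℝ)) = -((2 : ℕ) : ℝ) by norm_num, Real.rpow_neg h2i0.le,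
      Real.rpow_natCast, one_div]
  -- the second error term
  have hsec : ∀ a : ℕ, 2 ^ i ≤ a → (2 : ℝ) ^ (a + ρ) * ((2 : ℝ) ^ a) ^ (-(1 + δ / 4)) ≤
      2 ^ ρ / ((2 : ℝ) ^ i) ^ 2 := by
    intro a ha
    have ha0 : (0 : ℝ) < 2 ^ a := by positivity
    have e1 : (2 : ℝ) ^ (a + ρ) * ((2 : ℝ) ^ a) ^ (-(1 + δ / 4)) =
        2 ^ ρ * ((2 : ℝ) ^ a) ^ (-(δ / 4)) := by
      rw [pow_add, show -(1 + δ / 4) = -1 + -(δ / 4) by ring, Real.rpow_add ha0, Real.rpow_neg_one]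
      field_simp
    have e0 : (2 : ℝ) ^ ρ / ((2 : ℝ) ^ i) ^ 2 = 2 ^ ρ * (((2 : ℝ) ^ i) ^ 2)⁻¹ := div_eq_mul_inv _ _
    rw [e1, e0]
    refine mul_le_mul_of_nonneg_left ?_ hρ0.le
    have e2 : ((2 : ℝ) ^ a) ^ (-(δ / 4)) = (2 : ℝ) ^ (-(a * (δ / 4))) := by
      rw [← Real.rpow_natCast, ← Real.rpow_mul (by norm_num)]
      congr 1; ring
    have e3 : (((2 : ℝ) ^ i) ^ 2)⁻¹ = (2 : ℝ) ^ (-(2 * i : ℝ)) := by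
      rw [← pow_mul, Real.rpow_neg (by norm_num)]
      congr 1
      rw [← Real.rpow_natCast]
      congr 1; push_cast; ring
    rw [e2, e3]
    refine Real.rpow_le_rpow_of_exponent_le (by norm_num) ?_
    have e4 : ((i : ℝ)) ^ 2 ≤ a := by
      have := (sq_le85 i hi4).trans ha
      exact_mod_cast this
    have e5 : 8 ≤ (i : ℝ) * δ := by
      have h1 : (i3 : ℝ) ≤ i := by exact_mod_cast hi3'
      have h2 : 8 / δ < i := lt_of_lt_of_le hi3 h1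
      rw [div_lt_iff₀ hδ] at h2
      exact h2.le
    have e6 : (0 : ℝ) ≤ i := by positivity
    have e7 : (2 * i : ℝ) ≤ (i : ℝ) ^ 2 * (δ / 4) := by nlinarith
    have e8 : (i : ℝ) ^ 2 * (δ / 4) ≤ a * (δ / 4) := mul_le_mul_of_nonneg_right e4 (by positivity)
    linarith
  calc pr S (fun T => ∃ a jj N : ℕ, 2 ^ i ≤ a ∧ a < 2 * 2 ^ i ∧ jj < 2 ^ (a + ρ) ∧
        Y ≤ DD (2 ^ (a + ρ)) ((jj : ℝ) / (2 ^ (a + ρ) : ℕ)) ∧ 2 ^ a ≤ N ∧ N ≤ 2 ^ (a + 1) ∧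
        (1 + δ) * tg N < ‖SN N T ((jj : ℝ) / (2 ^ (a + ρ) : ℕ))‖)
      ≤ pr S (fun T => ∃ a ∈ Finset.Ico (2 ^ i) (2 * 2 ^ i), ∃ jj ∈ (Finset.range (2 ^ (a + ρ))).filter
          (fun j : ℕ => Y ≤ DD (2 ^ (a + ρ)) ((j : ℝ) / (2 ^ (a + ρ) : ℕ))), Q a jj T) := by
        refine pr_mono fun T _ => ?_
        rintro ⟨a, jj, N, h1, h2, h3, h4, h5, h6, h7⟩
        exact ⟨a, Finset.mem_Ico.2 ⟨h1, h2⟩, jj,
          Finset.mem_filter.2 ⟨Finset.mem_range.2 h3, h4⟩, N, h5, h6, h7⟩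
    _ ≤ ∑ a ∈ Finset.Ico (2 ^ i) (2 * 2 ^ i), pr S (fun T => ∃ jj ∈ (Finset.range (2 ^ (a + ρ))).filter
          (fun j : ℕ => Y ≤ DD (2 ^ (a + ρ)) ((j : ℝ) / (2 ^ (a + ρ) : ℕ))), Q a jj T) :=
        pr_exists _ _ _
    _ ≤ ∑ a ∈ Finset.Ico (2 ^ i) (2 * 2 ^ i),
          (600 * ((2 : ℝ) ^ ρ) ^ (17 / 8 : ℝ) + 2 ^ ρ) / ((2 : ℝ) ^ i) ^ 2 := by
        refine Finset.sum_le_sum fun a ha => ?_
        obtain ⟨ha1, ha2⟩ := Finset.mem_Ico.1 ha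
        have hN1 : 1 ≤ 2 ^ (a + ρ) := Nat.one_le_two_pow
        refine (pr_exists _ _ _).trans ?_
        have hterm : ∀ jj ∈ (Finset.range (2 ^ (a + ρ))).filter
            (fun j : ℕ => Y ≤ DD (2 ^ (a + ρ)) ((j : ℝ) / (2 ^ (a + ρ) : ℕ))),
            pr S (Q a jj) ≤ 4 * ((2 : ℝ) ^ ρ) ^ (17 / 8 : ℝ) *
              (DD (2 ^ (a + ρ)) ((jj : ℝ) / (2 ^ (a + ρ) : ℕ))) ^ (-(17 / 8) : ℝ) +
              ((2 : ℝ) ^ a) ^ (-(1 + δ / 4)) := by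
          intro jj hjj
          have hYj := (Finset.mem_filter.1 hjj).2
          set DJ := DD (2 ^ (a + ρ)) ((jj : ℝ) / (2 ^ (a + ρ) : ℕ)) with hDJ
          have hle : DJ ≤ (2 : ℝ) ^ (a + ρ) := by
            have := DD_le (2 ^ (a + ρ)) hN1 jj
            refine this.trans (le_of_eq ?_)
            push_cast
            rfl
          have hDJ0 : 0 < DJ := lt_of_lt_of_le hY0 hYj
          have hfar : Far (2 ^ a) ((jj : ℝ) / (2 ^ (a + ρ) : ℕ)) (DJ / 2 ^ ρ) :=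
            far_scale85 (DD_far (2 ^ (a + ρ)) hN1 jj)
          have hD2 : DJ / 2 ^ ρ ≤ 2 ^ a := by
            rw [div_le_iff₀ hρ0, ← pow_add]
            exact hle
          have hD1 : ((2 : ℝ) ^ i) ^ C1 ≤ DJ / 2 ^ ρ := by
            rw [le_div_iff₀ hρ0]
            refine le_trans ?_ hYj
            calc ((2 : ℝ) ^ i) ^ C1 * 2 ^ ρ ≤ ((2 : ℝ) ^ i) ^ C1 * ((2 : ℝ) ^ i) ^ ρ := by
                  gcongr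
              _ = ((2 : ℝ) ^ i) ^ (C1 + ρ) := (pow_add _ _ _).symm
              _ ≤ Y := pow_le_pow_right₀ h2i (by omega)
          have hpow : (DJ / 2 ^ ρ) ^ (-(17 / 8) : ℝ) =
              ((2 : ℝ) ^ ρ) ^ (17 / 8 : ℝ) * DJ ^ (-(17 / 8) : ℝ) := by
            rw [Real.div_rpow hDJ0.le hρ0.le, Real.rpow_neg hρ0.le (17 / 8), div_inv_eq_mul, mul_comm]
          have hnn : 0 ≤ ((2 : ℝ) ^ a) ^ (-(1 + δ / 4)) := by positivity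
          rcases le_total (DJ / 2 ^ ρ) (((2 : ℝ) ^ a) ^ κ) with hc | hc
          · have h1 := hfa i hi1 a ha1 ha2 _ _ hfar hD1 hc
            have h2 : pr S (Q a jj) ≤ pr S (fun T => ∃ N : ℕ, 2 ^ a ≤ N ∧ N ≤ 2 ^ (a + 1) ∧
                1 / 2 * Real.sqrt (2 ^ a * 2 ^ i) < ‖SN N T ((jj : ℝ) / (2 ^ (a + ρ) : ℕ))‖) := by
              refine pr_mono fun T _ => ?_
              rintro ⟨N, b1, b2, b3⟩
              refine ⟨N, b1, b2, lt_of_le_of_lt ?_ b3⟩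
              have b4 := tg_ge85 ha1 b1
              have b5 : 0 ≤ tg N := Real.sqrt_nonneg _
              nlinarith
            rw [hpow] at h1
            linarith
          · have h1 := hfb i hi2 a ha1 ha2 _ _ hfar hc hD2
            rw [hpow] at h1
            linarith
        refine (Finset.sum_le_sum hterm).trans ?_
        rw [Finset.sum_add_distrib, ← Finset.mul_sum]
        have hsum := DD_sum2 (2 ^ (a + ρ)) hN1 Y hY1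
        have hcard : ∑ _jj ∈ (Finset.range (2 ^ (a + ρ))).filter
            (fun j : ℕ => Y ≤ DD (2 ^ (a + ρ)) ((j : ℝ) / (2 ^ (a + ρ) : ℕ))),
            ((2 : ℝ) ^ a) ^ (-(1 + δ / 4)) ≤ (2 : ℝ) ^ (a + ρ) * ((2 : ℝ) ^ a) ^ (-(1 + δ / 4)) := by
          rw [Finset.sum_const, nsmul_eq_mul]
          refine mul_le_mul_of_nonneg_right ?_ (by positivity)
          have h1 := Finset.card_filter_le (Finset.range (2 ^ (a + ρ)))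
            (fun j : ℕ => Y ≤ DD (2 ^ (a + ρ)) ((j : ℝ) / (2 ^ (a + ρ) : ℕ)))
          rw [Finset.card_range] at h1
          exact_mod_cast h1
        have h3 := hcard.trans (hsec a ha1)
        have h4 : 4 * ((2 : ℝ) ^ ρ) ^ (17 / 8 : ℝ) * ∑ jj ∈ (Finset.range (2 ^ (a + ρ))).filter
              (fun j : ℕ => Y ≤ DD (2 ^ (a + ρ)) ((j : ℝ) / (2 ^ (a + ρ) : ℕ))),
              (DD (2 ^ (a + ρ)) ((jj : ℝ) / (2 ^ (a + ρ) : ℕ))) ^ (-(17 / 8) : ℝ) ≤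
            600 * ((2 : ℝ) ^ ρ) ^ (17 / 8 : ℝ) / ((2 : ℝ) ^ i) ^ 2 := by
          calc _ ≤ 4 * ((2 : ℝ) ^ ρ) ^ (17 / 8 : ℝ) * (150 * Y ^ (-(1 / 8) : ℝ)) :=
                mul_le_mul_of_nonneg_left hsum (by positivity)
            _ ≤ 4 * ((2 : ℝ) ^ ρ) ^ (17 / 8 : ℝ) * (150 * (1 / ((2 : ℝ) ^ i) ^ 2)) := by gcongr
            _ = _ := by ring
        rw [add_div]
        exact add_le_add h4 h3
    _ = (600 * ((2 : ℝ) ^ ρ) ^ (17 / 8 : ℝ) + 2 ^ ρ) / (2 : ℝ) ^ i := by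
        rw [Finset.sum_const, Nat.card_Ico, nsmul_eq_mul]
        have : 2 * 2 ^ i - 2 ^ i = 2 ^ i := by omega
        rw [this]
        push_cast
        field_simp

/-- **Block D1**, from the blocks B9, B10 and C7. -/
theorem unif3_of
    (hA : ∀ δ : ℝ, 0 < δ → ∃ (κ : ℝ) (C1 i0 : ℕ), 0 < κ ∧ ∀ i : ℕ, i0 ≤ i → ∀ a : ℕ, 2 ^ i ≤ a →
      a < 2 * 2 ^ i → ∀ x D : ℝ, Far (2 ^ a) x D → ((2 : ℝ) ^ i) ^ C1 ≤ D → D ≤ ((2 : ℝ) ^ a) ^ κ →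
      pr (PP (2 ^ (2 * 2 ^ i))) (fun T => ∃ N : ℕ, 2 ^ a ≤ N ∧ N ≤ 2 ^ (a + 1) ∧
        δ * Real.sqrt (2 ^ a * 2 ^ i) < ‖SN N T x‖) ≤ 4 * D ^ (-(17 / 8) : ℝ))
    (hB : ∀ κ δ : ℝ, 0 < κ → 0 < δ → ∃ i0 : ℕ, ∀ i : ℕ, i0 ≤ i → ∀ a : ℕ, 2 ^ i ≤ a →
      a < 2 * 2 ^ i → ∀ x D : ℝ, Far (2 ^ a) x D → ((2 : ℝ) ^ a) ^ κ ≤ D → D ≤ 2 ^ a →
      pr (PP (2 ^ (2 * 2 ^ i))) (fun T => ∃ N : ℕ, 2 ^ a ≤ N ∧ N ≤ 2 ^ (a + 1) ∧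
        (1 + δ) * tg N < ‖SN N T x‖) ≤ 4 * D ^ (-(17 / 8) : ℝ) + ((2 : ℝ) ^ a) ^ (-(1 + δ / 4)))
    (hC : ∀ C1 ρ : ℕ, ∃ i0 : ℕ, ∀ i : ℕ, i0 ≤ i →
      pr (PP (2 ^ (2 * 2 ^ i))) (fun T => ∃ a jj N : ℕ, 2 ^ i ≤ a ∧ a < 2 * 2 ^ i ∧ jj < 2 ^ (a + ρ) ∧
        DD (2 ^ (a + ρ)) ((jj : ℝ) / (2 ^ (a + ρ) : ℕ)) < ((2 : ℝ) ^ i) ^ C1 ∧ 2 ^ a ≤ N ∧ N ≤ 2 ^ (a + 1) ∧
        Real.sqrt (2 ^ a) * ((2 : ℝ) ^ i) ^ (1 / 2 - 1 / 4000 : ℝ) < ‖SN N T ((jj : ℝ) / (2 ^ (a + ρ) : ℕ))‖) ≤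
        ((2 : ℝ) ^ i) ^ (-(1 / 200) : ℝ))
    (δ : ℝ) (hδ : 0 < δ) (ρ : ℕ) : ∃ (c : ℝ) (i0 : ℕ), 0 < c ∧ ∀ i : ℕ, i0 ≤ i →
    pr (PP (2 ^ (2 * 2 ^ i))) (fun T => ∃ a jj N : ℕ, 2 ^ i ≤ a ∧ a < 2 * 2 ^ i ∧ jj < 2 ^ (a + ρ) ∧
      2 ^ a ≤ N ∧ N ≤ 2 ^ (a + 1) ∧ (1 + δ) * tg N < ‖SN N T ((jj : ℝ) / (2 ^ (a + ρ) : ℕ))‖) ≤
      ((2 : ℝ) ^ i) ^ (-c) := by
  obtain ⟨C, i1, K, hK, hfar⟩ := far_unif85 hA hB δ hδ ρ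
  obtain ⟨i2, hnear⟩ := hC C ρ
  have h2c : (1 : ℝ) < 2 ^ (1 / 400 : ℝ) := Real.one_lt_rpow (by norm_num) (by norm_num)
  obtain ⟨i3, hi3⟩ := pow_unbounded_of_one_lt (1 + K) h2c
  refine ⟨1 / 400, max (max i1 i2) (max i3 4000), by norm_num, ?_⟩
  intro i hi
  have hi1 : i1 ≤ i := (le_max_left _ _).trans ((le_max_left _ _).trans hi)
  have hi2 : i2 ≤ i := (le_max_right _ _).trans ((le_max_left _ _).trans hi)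
  have hi3' : i3 ≤ i := (le_max_left _ _).trans ((le_max_right _ _).trans hi)
  have hi4 : 4000 ≤ i := (le_max_right _ _).trans ((le_max_right _ _).trans hi)
  have hL1 : (1 : ℝ) ≤ 2 ^ i := one_le_pow₀ (by norm_num)
  have hL0 : (0 : ℝ) < 2 ^ i := by positivity
  -- the threshold of the near points
  have hthr : ∀ a N : ℕ, 2 ^ i ≤ a → 2 ^ a ≤ N →
      Real.sqrt (2 ^ a) * ((2 : ℝ) ^ i) ^ (1 / 2 - 1 / 4000 : ℝ) ≤ (1 + δ) * tg N := by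
    intro a N ha hN
    have h1 := tg_ge85 ha hN
    have h2 : ((2 : ℝ) ^ i) ^ (-(1 / 4000) : ℝ) ≤ 1 / 2 := by
      have h3 : ((2 : ℝ) ^ 4000) ≤ (2 : ℝ) ^ i := pow_le_pow_right₀ (by norm_num) hi4
      have h4 : ((2 : ℝ) ^ i) ^ (-(1 / 4000) : ℝ) ≤ ((2 : ℝ) ^ 4000) ^ (-(1 / 4000) : ℝ) :=
        Real.rpow_le_rpow_of_nonpos (by positivity) h3 (by norm_num)
      refine h4.trans (le_of_eq ?_)
      rw [← Real.rpow_natCast, ← Real.rpow_mul (by norm_num)]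
      rw [show (((4000 : ℕ) : ℝ) * (-(1 / 4000) : ℝ)) = -1 by norm_num, Real.rpow_neg_one]
      norm_num
    have h5 : ((2 : ℝ) ^ i) ^ (1 / 2 - 1 / 4000 : ℝ) ≤ Real.sqrt (2 ^ i) * (1 / 2) := by
      rw [show (1 / 2 - 1 / 4000 : ℝ) = 1 / 2 + -(1 / 4000) by norm_num, Real.rpow_add hL0,
        Real.sqrt_eq_rpow]
      exact mul_le_mul_of_nonneg_left h2 (by positivity)
    have h6 : 0 ≤ tg N := Real.sqrt_nonneg _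
    calc Real.sqrt (2 ^ a) * ((2 : ℝ) ^ i) ^ (1 / 2 - 1 / 4000 : ℝ)
        ≤ Real.sqrt (2 ^ a) * (Real.sqrt (2 ^ i) * (1 / 2)) :=
          mul_le_mul_of_nonneg_left h5 (Real.sqrt_nonneg _)
      _ = 1 / 2 * Real.sqrt (2 ^ a * 2 ^ i) := by
          rw [Real.sqrt_mul (by positivity)]; ring
      _ ≤ tg N := h1
      _ ≤ (1 + δ) * tg N := by nlinarith
  have hsum := pr_le_add (S := PP (2 ^ (2 * 2 ^ i)))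
    (P := fun T => ∃ a jj N : ℕ, 2 ^ i ≤ a ∧ a < 2 * 2 ^ i ∧ jj < 2 ^ (a + ρ) ∧
      2 ^ a ≤ N ∧ N ≤ 2 ^ (a + 1) ∧ (1 + δ) * tg N < ‖SN N T ((jj : ℝ) / (2 ^ (a + ρ) : ℕ))‖)
    (Q := fun T => ∃ a jj N : ℕ, 2 ^ i ≤ a ∧ a < 2 * 2 ^ i ∧ jj < 2 ^ (a + ρ) ∧
      DD (2 ^ (a + ρ)) ((jj : ℝ) / (2 ^ (a + ρ) : ℕ)) < ((2 : ℝ) ^ i) ^ C ∧ 2 ^ a ≤ N ∧ N ≤ 2 ^ (a + 1) ∧
      Real.sqrt (2 ^ a) * ((2 : ℝ) ^ i) ^ (1 / 2 - 1 / 4000 : ℝ) < ‖SN N T ((jj : ℝ) / (2 ^ (a + ρ) : ℕ))‖)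
    (R := fun T => ∃ a jj N : ℕ, 2 ^ i ≤ a ∧ a < 2 * 2 ^ i ∧ jj < 2 ^ (a + ρ) ∧
      ((2 : ℝ) ^ i) ^ C ≤ DD (2 ^ (a + ρ)) ((jj : ℝ) / (2 ^ (a + ρ) : ℕ)) ∧
      2 ^ a ≤ N ∧ N ≤ 2 ^ (a + 1) ∧ (1 + δ) * tg N < ‖SN N T ((jj : ℝ) / (2 ^ (a + ρ) : ℕ))‖)
    (by
      rintro T _ ⟨a, jj, N, h1, h2, h3, h4, h5, h6⟩
      rcases lt_or_ge (DD (2 ^ (a + ρ)) ((jj : ℝ) / (2 ^ (a + ρ) : ℕ))) (((2 : ℝ) ^ i) ^ C) with h | h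
      · exact Or.inl ⟨a, jj, N, h1, h2, h3, h, h4, h5, lt_of_le_of_lt (hthr a N h1 h4) h6⟩
      · exact Or.inr ⟨a, jj, N, h1, h2, h3, h, h4, h5, h6⟩)
  refine hsum.trans ((add_le_add (hnear i hi2) (hfar i hi1)).trans ?_)
  have e2 : K / (2 : ℝ) ^ i ≤ K * ((2 : ℝ) ^ i) ^ (-(1 / 200) : ℝ) := by
    have h : ((2 : ℝ) ^ i) ^ (-1 : ℝ) ≤ ((2 : ℝ) ^ i) ^ (-(1 / 200) : ℝ) :=
      Real.rpow_le_rpow_of_exponent_le hL1 (by norm_num)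
    rw [Real.rpow_neg_one] at h
    rw [div_eq_mul_inv]
    exact mul_le_mul_of_nonneg_left h hK.le
  have e3 : 1 + K ≤ ((2 : ℝ) ^ i) ^ (1 / 400 : ℝ) := by
    have h1 : ((2 : ℝ) ^ i) ^ (1 / 400 : ℝ) = (2 ^ (1 / 400 : ℝ)) ^ i := by
      rw [← Real.rpow_natCast, ← Real.rpow_mul (by norm_num), mul_comm, Real.rpow_mul (by norm_num),
        Real.rpow_natCast]
    rw [h1]
    exact hi3.le.trans (pow_le_pow_right₀ h2c.le hi3')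
  have e4 : ((2 : ℝ) ^ i) ^ (-(1 / 200) : ℝ) * ((2 : ℝ) ^ i) ^ (1 / 400 : ℝ) =
      ((2 : ℝ) ^ i) ^ (-(1 / 400) : ℝ) := by
    rw [← Real.rpow_add hL0]
    congr 1; norm_num
  have e5 : 0 < ((2 : ℝ) ^ i) ^ (-(1 / 200) : ℝ) := Real.rpow_pos_of_pos hL0 _
  calc ((2 : ℝ) ^ i) ^ (-(1 / 200) : ℝ) + K / (2 : ℝ) ^ i
      ≤ ((2 : ℝ) ^ i) ^ (-(1 / 200) : ℝ) * (1 + K) := by linarith
    _ ≤ ((2 : ℝ) ^ i) ^ (-(1 / 200) : ℝ) * ((2 : ℝ) ^ i) ^ (1 / 400 : ℝ) :=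
        mul_le_mul_of_nonneg_left e3 e5.le
    _ = ((2 : ℝ) ^ i) ^ (-(1 / 400) : ℝ) := e4

end Pool.Agent.Helper51.EA
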