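import Pool.Agent.Helper85.EA.A3F
import Pool.Agent.Helper54.EA.A2
import Pool.Agent.Helper96.EA.E23

/-!
# Block EA-D2w: the conditions of `step` at one far point, with a direction

The block `(y, y']` is cut into the dyadic pieces `[(y+1) 2^i, (y+1) 2^(i+1))`; in each piece
`fl_minus` and `fl_plus` with `B = ⌊N^b⌋`, `k` large and fixed; `XG_max` for the single primes.
-/

set_option autoImplicit false

namespace Pool.Agent.Helper51.EA

open Finset Pool.Agent.Helper5.RM Pool.Agent.Helper5.RS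

/-- powers of logarithms are small -/
private theorem ev85w (m : ℕ) (C ε : ℝ) (hε : 0 < ε) :
    ∃ N0 : ℕ, ∀ N : ℕ, N0 ≤ N → C * LL N ^ m ≤ (N : ℝ) ^ ε := by
  set δ : ℝ := ε / (2 * (m + 1)) with hδ
  have hδ0 : 0 < δ := by positivity
  set C' : ℝ := |C| * (1 + 1 / δ) ^ m with hC'
  have ht := tendsto_rpow_atTop (show 0 < ε / 2 by positivity)
  obtain ⟨x0, hx0⟩ := Filter.eventually_atTop.1 (ht.eventually_ge_atTop C')
  refine ⟨max 1 ⌈x0⌉₊, fun N hN => ?_⟩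
  have hN1 : 1 ≤ N := (le_max_left _ _).trans hN
  have hN1r : (1 : ℝ) ≤ N := by exact_mod_cast hN1
  have hN0 : (0 : ℝ) < N := by linarith
  have hNx : x0 ≤ N := (Nat.le_ceil _).trans (by exact_mod_cast (le_max_right _ _).trans hN)
  have hbig := hx0 N hNx
  have hlog : Real.log N ≤ (N : ℝ) ^ δ / δ := Real.log_le_rpow_div hN0.le hδ0
  have hone : (1 : ℝ) ≤ (N : ℝ) ^ δ := Real.one_le_rpow hN1r hδ0.le
  have hLL0 : 0 ≤ LL N := by
    unfold LL
    have := Real.log_nonneg hN1r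
    linarith
  have hLL : LL N ≤ (1 + 1 / δ) * (N : ℝ) ^ δ := by
    unfold LL
    have : (1 + 1 / δ) * (N : ℝ) ^ δ = (N : ℝ) ^ δ + (N : ℝ) ^ δ / δ := by ring
    linarith
  have hpow : LL N ^ m ≤ (1 + 1 / δ) ^ m * (N : ℝ) ^ (ε / 2) := by
    calc LL N ^ m ≤ ((1 + 1 / δ) * (N : ℝ) ^ δ) ^ m := pow_le_pow_left₀ hLL0 hLL m
      _ = (1 + 1 / δ) ^ m * (N : ℝ) ^ (δ * m) := by
          rw [mul_pow, ← Real.rpow_natCast ((N : ℝ) ^ δ) m, ← Real.rpow_mul hN0.le]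
      _ ≤ (1 + 1 / δ) ^ m * (N : ℝ) ^ (ε / 2) := by
          apply mul_le_mul_of_nonneg_left _ (by positivity)
          apply Real.rpow_le_rpow_of_exponent_le hN1r
          rw [hδ, div_mul_eq_mul_div, div_le_div_iff₀ (by positivity) (by norm_num)]
          nlinarith
  calc C * LL N ^ m ≤ |C| * LL N ^ m := mul_le_mul_of_nonneg_right (le_abs_self C) (by positivity)
    _ ≤ |C| * ((1 + 1 / δ) ^ m * (N : ℝ) ^ (ε / 2)) := mul_le_mul_of_nonneg_left hpow (abs_nonneg C)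
    _ = C' * (N : ℝ) ^ (ε / 2) := by rw [hC']; ring
    _ ≤ (N : ℝ) ^ (ε / 2) * (N : ℝ) ^ (ε / 2) := mul_le_mul_of_nonneg_right hbig (by positivity)
    _ = (N : ℝ) ^ ε := by rw [← Real.rpow_add hN0]; congr 1; ring

private theorem re_sq85w (ω : ℂ) (hω : ‖ω‖ = 1) (z : ℂ) : (ω * z).re ^ 2 = (‖z‖ ^ 2 + (ω ^ 2 * z ^ 2).re) / 2 := by
  have h1 : ‖z‖ ^ 2 = ‖ω * z‖ ^ 2 := by rw [norm_mul, hω, one_mul]
  have h2 : ω ^ 2 * z ^ 2 = (ω * z) * (ω * z) := by ring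
  rw [h1, h2, ← Complex.normSq_eq_norm_sq, Complex.normSq_apply, Complex.mul_re (ω * z) (ω * z)]
  ring

/-- the index of the dyadic piece -/
private def ix85w (y p : ℕ) : ℕ := Nat.log 2 (p / (y + 1))

private theorem ix85w_lt {y N p : ℕ} (hp : p ≤ N) : ix85w y p < Nat.log 2 N + 1 := by
  unfold ix85w
  exact Nat.lt_succ_of_le (Nat.log_mono_right ((Nat.div_le_self _ _).trans hp))

private theorem ix85w_spec {y p : ℕ} (hp : y < p) :
    (y + 1) * 2 ^ ix85w y p ≤ p ∧ p < 2 * ((y + 1) * 2 ^ ix85w y p) := by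
  unfold ix85w
  have h0 : p / (y + 1) ≠ 0 := (Nat.div_pos hp (Nat.succ_pos y)).ne'
  have h1 : 2 ^ Nat.log 2 (p / (y + 1)) ≤ p / (y + 1) := Nat.pow_log_le_self 2 h0
  have h2 : p / (y + 1) < 2 ^ (Nat.log 2 (p / (y + 1)) + 1) := Nat.lt_pow_succ_log_self (by norm_num) _
  constructor
  · calc (y + 1) * 2 ^ Nat.log 2 (p / (y + 1)) ≤ (y + 1) * (p / (y + 1)) := Nat.mul_le_mul_left _ h1
      _ ≤ p := Nat.mul_div_le _ _
  · have h3 : p < (y + 1) * 2 ^ (Nat.log 2 (p / (y + 1)) + 1) := by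
      rw [mul_comm]
      exact (Nat.div_lt_iff_lt_mul (Nat.succ_pos y)).1 h2
    calc p < (y + 1) * 2 ^ (Nat.log 2 (p / (y + 1)) + 1) := h3
      _ = 2 * ((y + 1) * 2 ^ Nat.log 2 (p / (y + 1))) := by ring

private theorem sum_ix85w {M : Type*} [AddCommMonoid M] {y y' N : ℕ} (hy : y' ≤ N) (f : ℕ → M) :
    ∑ p ∈ Pb y y', f p = ∑ i ∈ range (Nat.log 2 N + 1), ∑ p ∈ (Pb y y').filter (fun p => ix85w y p = i), f p := by
  rw [Finset.sum_fiberwise_of_maps_to]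
  intro p hp
  unfold Pb at hp
  rw [mem_filter, mem_Ioc] at hp
  exact Finset.mem_range.2 (ix85w_lt (hp.1.2.trans hy))

/-- from the pieces to the block -/
private theorem glue85w {N y y' : ℕ} (hy : y' ≤ N) (A : Finset ℕ) (θ : ℝ) (T : Finset ℕ) (t : ℝ) (ω : ℂ) (hω : ‖ω‖ = 1)
    (h1 : ∀ i ∈ range (Nat.log 2 N + 1), |∑ p ∈ (Pb y y').filter (fun p => ix85w y p = i), ‖XG N A θ p T‖ ^ 2 -
      ∑ p ∈ (Pb y y').filter (fun p => ix85w y p = i), ((MG N A p).card : ℝ)| ≤ t)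
    (h2 : ∀ i ∈ range (Nat.log 2 N + 1), ‖∑ p ∈ (Pb y y').filter (fun p => ix85w y p = i), XG N A θ p T ^ 2‖ ≤ t) :
    |∑ p ∈ Pb y y', (ω * XG N A θ p T).re ^ 2 - (∑ p ∈ Pb y y', ((MG N A p).card : ℝ)) / 2| ≤
      ((Nat.log 2 N + 1 : ℕ) : ℝ) * t := by
  have e1 : ∑ p ∈ Pb y y', (ω * XG N A θ p T).re ^ 2 - (∑ p ∈ Pb y y', ((MG N A p).card : ℝ)) / 2 =
      (∑ p ∈ Pb y y', ‖XG N A θ p T‖ ^ 2 - ∑ p ∈ Pb y y', ((MG N A p).card : ℝ)) / 2 +
        (ω ^ 2 * ∑ p ∈ Pb y y', XG N A θ p T ^ 2).re / 2 := by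
    rw [Finset.mul_sum, Complex.re_sum]
    simp only [re_sq85w ω hω]
    rw [← Finset.sum_div, Finset.sum_add_distrib]
    ring
  have a1 : |∑ p ∈ Pb y y', ‖XG N A θ p T‖ ^ 2 - ∑ p ∈ Pb y y', ((MG N A p).card : ℝ)| ≤
      ((Nat.log 2 N + 1 : ℕ) : ℝ) * t := by
    rw [sum_ix85w hy (fun p => ‖XG N A θ p T‖ ^ 2), sum_ix85w hy (fun p => ((MG N A p).card : ℝ)),
      ← Finset.sum_sub_distrib]
    refine (Finset.abs_sum_le_sum_abs _ _).trans ((Finset.sum_le_sum h1).trans (le_of_eq ?_))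
    rw [Finset.sum_const, card_range, nsmul_eq_mul]
  have a2 : |(ω ^ 2 * ∑ p ∈ Pb y y', XG N A θ p T ^ 2).re| ≤ ((Nat.log 2 N + 1 : ℕ) : ℝ) * t := by
    refine (Complex.abs_re_le_norm _).trans ?_
    rw [norm_mul, norm_pow, hω, one_pow, one_mul]
    rw [sum_ix85w hy (fun p => XG N A θ p T ^ 2)]
    refine (norm_sum_le _ _).trans ((Finset.sum_le_sum h2).trans (le_of_eq ?_))
    rw [Finset.sum_const, card_range, nsmul_eq_mul]
  rw [e1]
  refine (abs_add_le _ _).trans ?_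
  rw [abs_div, abs_div, abs_of_pos (show (0 : ℝ) < 2 by norm_num)]
  linarith

/-- D2w -/
theorem cond_okW (κ c η : ℝ) (K : ℕ) (hκ : 0 < κ) (hc : 0 < c) (hc1 : c < 1 / 2) (hη : 0 < η) :
    ∃ (β : ℝ) (N0 : ℕ), 0 < β ∧ ∀ N : ℕ, N0 ≤ N → ∀ θ D : ℝ, Far N θ D → (N : ℝ) ^ κ ≤ D → D ≤ N → ∀ b < K,
    ∀ ω : ℂ, ‖ω‖ = 1 →
    pr (PP N) (fun T => (∃ p ∈ Pb (yb N c η K b) (yb N c η K (b + 1)),
        (N : ℝ) ^ (1 / 2 - β) < |(ω * XG N (Sy N (yb N c η K b)) θ p T).re|) ∨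
      (N : ℝ) ^ (1 - β) < |∑ p ∈ Pb (yb N c η K b) (yb N c η K (b + 1)), (ω * XG N (Sy N (yb N c η K b)) θ p T).re ^ 2 -
        vb N (yb N c η K) b|) ≤ (N : ℝ) ^ (-(4 : ℝ)) := by
  classical
  have hc1' : 0 < 1 - c := by linarith
  set u0 : ℝ := uu c η K 0 with hu0
  have hu0p : 0 < u0 := by rw [hu0]; unfold uu; positivity
  set b' : ℝ := min u0 (min κ c) with hb'
  have hb'p : 0 < b' := lt_min hu0p (lt_min hκ hc)
  have hb1 : b' ≤ u0 := min_le_left _ _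
  have hb2 : b' ≤ κ := (min_le_right _ _).trans (min_le_left _ _)
  have hb3 : b' ≤ c := (min_le_right _ _).trans (min_le_right _ _)
  set β : ℝ := b' / 64 with hβ
  have hβp : 0 < β := by positivity
  set k : ℕ := ⌈48 / b'⌉₊ + 1 with hk
  have hk1 : 1 ≤ k := by omega
  have hkb : 48 ≤ b' * k := by
    have h1 : 48 / b' ≤ (⌈48 / b'⌉₊ : ℝ) := Nat.le_ceil _
    have h2 : (k : ℝ) = (⌈48 / b'⌉₊ : ℝ) + 1 := by rw [hk]; push_cast; ring
    have h3 : 48 / b' ≤ k := by rw [h2]; linarith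
    rw [div_le_iff₀ hb'p] at h3
    linarith
  set w : ℕ := 16 * k ^ 2 with hw
  have hww : (4 * (k : ℝ)) ^ ((1 : ℝ) + 1) ≤ w := by
    rw [show (1 : ℝ) + 1 = ((2 : ℕ) : ℝ) by norm_num, Real.rpow_natCast, hw]
    push_cast
    nlinarith
  obtain ⟨N1, h1⟩ := ev85w 1 256 b' hb'p
  obtain ⟨N2, h2⟩ := ev85w 1 2 β hβp
  obtain ⟨N3, h3⟩ := ev85w (2 * w + 6) 4000 (b' / 16) (by positivity)
  obtain ⟨N4, h4⟩ := ev85w (2 * k - 1) 1 (b' / 16) (by positivity)
  refine ⟨β, max (max N1 N2) (max (max N3 N4) 4), hβp, ?_⟩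
  intro N hN θ D hF hκD hDN b hb ω hω
  have hN1' := h1 N (by omega)
  have hN2' := h2 N (by omega)
  have hN3' := h3 N (by omega)
  have hN4' := h4 N (by omega)
  have hN4 : 4 ≤ N := by omega
  clear h1 h2 h3 h4
  have hN4r : (4 : ℝ) ≤ N := by exact_mod_cast hN4
  have hN0 : (0 : ℝ) < N := by linarith
  have hN1r : (1 : ℝ) ≤ N := by linarith
  have hlog0 : 0 ≤ Real.log N := Real.log_nonneg hN1r
  have hLL1 : 1 ≤ LL N := by unfold LL; linarith
  rw [pow_one] at hN1' hN2'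
  rw [one_mul] at hN4'
  set B : ℕ := ⌊(N : ℝ) ^ b'⌋₊ with hB
  have hBle : (B : ℝ) ≤ (N : ℝ) ^ b' := Nat.floor_le (by positivity)
  have hBge : (N : ℝ) ^ b' < B + 1 := Nat.lt_floor_add_one _
  have hBhalf : (N : ℝ) ^ b' / 2 ≤ B := by linarith
  have hB128 : 128 * LL N ≤ B := by linarith
  have hBpos : (0 : ℝ) < B := by linarith
  have hBD : (B : ℝ) ≤ D := hBle.trans ((Real.rpow_le_rpow_of_exponent_le hN1r hb2).trans hκD)
  have hD4 : 4 ≤ D := by linarith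
  -- the exponents
  have huu1 : u0 ≤ uu c η K b := by
    rw [hu0]; unfold uu
    rw [pow_zero, mul_one]
    apply div_le_div_of_nonneg_right _ (by positivity)
    have : (1 : ℝ) ≤ (1 + η) ^ b := one_le_pow₀ (by linarith)
    nlinarith
  have huu2 : uu c η K (b + 1) ≤ 1 - c := by
    unfold uu
    rw [div_le_iff₀ (by positivity)]
    apply mul_le_mul_of_nonneg_left _ hc1'.le
    exact pow_le_pow_right₀ (by linarith) hb
  set y : ℕ := yb N c η K b with hy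
  set y' : ℕ := yb N c η K (b + 1) with hy'
  have hylt : (N : ℝ) ^ b' < y + 1 := by
    refine lt_of_le_of_lt (Real.rpow_le_rpow_of_exponent_le hN1r (hb1.trans huu1)) ?_
    rw [hy]; unfold yb
    exact Nat.lt_floor_add_one _
  have hy'le : (y' : ℝ) ≤ (N : ℝ) ^ (1 - c) := by
    rw [hy']; unfold yb
    exact (Nat.floor_le (by positivity)).trans (Real.rpow_le_rpow_of_exponent_le hN1r huu2)
  have hy'N : y' ≤ N := by
    have h5 : (y' : ℝ) ≤ N := hy'le.trans (by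
      calc (N : ℝ) ^ (1 - c) ≤ (N : ℝ) ^ (1 : ℝ) := Real.rpow_le_rpow_of_exponent_le hN1r (by linarith)
        _ = N := Real.rpow_one _)
    exact_mod_cast h5
  have hBy : B ≤ y + 1 := by
    have h5 : (B : ℝ) ≤ ((y + 1 : ℕ) : ℝ) := by push_cast; linarith
    exact_mod_cast h5
  have hBy' : ∀ H : ℕ, H ≤ y' → B * H ≤ N := by
    intro H hH
    have h5 : ((B * H : ℕ) : ℝ) ≤ N := by
      push_cast
      have hHr : (H : ℝ) ≤ (N : ℝ) ^ (1 - c) := le_trans (by exact_mod_cast hH) hy'le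
      calc (B : ℝ) * H ≤ (N : ℝ) ^ c * (N : ℝ) ^ (1 - c) := by
            apply mul_le_mul _ hHr (by positivity) (by positivity)
            exact hBle.trans (Real.rpow_le_rpow_of_exponent_le hN1r hb3)
        _ = N := by
            rw [← Real.rpow_add hN0, show c + (1 - c) = 1 by ring, Real.rpow_one]
    exact_mod_cast h5
  set A : Finset ℕ := Sy N y with hA
  set t : ℝ := (N : ℝ) ^ (1 - 2 * β) with ht
  have htp : 0 < t := by positivity
  set I : ℕ := Nat.log 2 N + 1 with hI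
  -- number of pieces
  have hIβ : (I : ℝ) ≤ (N : ℝ) ^ β := by
    refine le_trans ?_ hN2'
    have h5 : ((Nat.log 2 N : ℕ) : ℝ) * Real.log 2 ≤ Real.log N := by
      rw [← Real.log_pow]
      apply Real.log_le_log (by positivity)
      exact_mod_cast Nat.pow_log_le_self 2 (by omega : N ≠ 0)
    have h6 := Real.log_two_gt_d9
    rw [hI]; push_cast; unfold LL
    nlinarith [Nat.cast_nonneg (α := ℝ) (Nat.log 2 N)]
  have hI4 : (I : ℝ) ≤ N := hIβ.trans (by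
    calc (N : ℝ) ^ β ≤ (N : ℝ) ^ (1 : ℝ) := by
          apply Real.rpow_le_rpow_of_exponent_le hN1r
          rw [hβ]; linarith
      _ = N := Real.rpow_one _)
  -- the bound of one piece
  have hG : (1000 * (N : ℝ) ^ 2 * LL N ^ (2 * w + 5) * (128 * LL N / B) ^ ((1 : ℝ) / 4) / t ^ 2) ^ k ≤
      (N : ℝ) ^ (-(6 : ℝ)) := by
    have e1 : (N : ℝ) ^ 2 / t ^ 2 = (N : ℝ) ^ (4 * β) := by
      rw [ht, ← Real.rpow_natCast ((N : ℝ) ^ (1 - 2 * β)) 2, ← Real.rpow_mul hN0.le,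
        ← Real.rpow_natCast (N : ℝ) 2, ← Real.rpow_sub hN0]
      congr 1; push_cast; ring
    have e2 : (128 * LL N / B) ^ ((1 : ℝ) / 4) ≤ 4 * LL N * (N : ℝ) ^ (-(b' / 4)) := by
      have h5 : 128 * LL N / B ≤ 256 * LL N * (N : ℝ) ^ (-b') := by
        rw [div_le_iff₀ hBpos, Real.rpow_neg hN0.le]
        have h6 : (0 : ℝ) < (N : ℝ) ^ b' := by positivity
        calc 128 * LL N = 256 * LL N * ((N : ℝ) ^ b')⁻¹ * ((N : ℝ) ^ b' / 2) := by
              field_simp; ring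
          _ ≤ 256 * LL N * ((N : ℝ) ^ b')⁻¹ * B := by
              apply mul_le_mul_of_nonneg_left hBhalf (by positivity)
      calc (128 * LL N / B) ^ ((1 : ℝ) / 4) ≤ (256 * LL N * (N : ℝ) ^ (-b')) ^ ((1 : ℝ) / 4) :=
            Real.rpow_le_rpow (by positivity) h5 (by norm_num)
        _ = (256 : ℝ) ^ ((1 : ℝ) / 4) * LL N ^ ((1 : ℝ) / 4) * (N : ℝ) ^ (-(b' / 4)) := by
            rw [Real.mul_rpow (by positivity) (by positivity), Real.mul_rpow (by norm_num) (by positivity),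
              ← Real.rpow_mul hN0.le]
            congr 2; ring
        _ ≤ 4 * LL N * (N : ℝ) ^ (-(b' / 4)) := by
            apply mul_le_mul_of_nonneg_right _ (by positivity)
            have h7 : (256 : ℝ) ^ ((1 : ℝ) / 4) = 4 := by
              rw [show (256 : ℝ) = (4 : ℝ) ^ ((4 : ℕ) : ℝ) by norm_num, ← Real.rpow_mul (by norm_num)]
              norm_num
            have h8 : LL N ^ ((1 : ℝ) / 4) ≤ LL N := by
              calc LL N ^ ((1 : ℝ) / 4) ≤ LL N ^ (1 : ℝ) := Real.rpow_le_rpow_of_exponent_le hLL1 (by norm_num)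
                _ = LL N := Real.rpow_one _
            rw [h7]
            linarith
    have e3 : 1000 * (N : ℝ) ^ 2 * LL N ^ (2 * w + 5) * (128 * LL N / B) ^ ((1 : ℝ) / 4) / t ^ 2 ≤
        (N : ℝ) ^ (-(b' / 8)) := by
      calc 1000 * (N : ℝ) ^ 2 * LL N ^ (2 * w + 5) * (128 * LL N / B) ^ ((1 : ℝ) / 4) / t ^ 2
          = 1000 * LL N ^ (2 * w + 5) * ((N : ℝ) ^ 2 / t ^ 2) * (128 * LL N / B) ^ ((1 : ℝ) / 4) := by ring
        _ ≤ 1000 * LL N ^ (2 * w + 5) * (N : ℝ) ^ (4 * β) * (4 * LL N * (N : ℝ) ^ (-(b' / 4))) := by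
            rw [e1]
            apply mul_le_mul_of_nonneg_left e2 (by positivity)
        _ = (4000 * LL N ^ (2 * w + 6)) * ((N : ℝ) ^ (4 * β) * (N : ℝ) ^ (-(b' / 4))) := by ring
        _ ≤ (N : ℝ) ^ (b' / 16) * ((N : ℝ) ^ (4 * β) * (N : ℝ) ^ (-(b' / 4))) := by
            apply mul_le_mul_of_nonneg_right hN3' (by positivity)
        _ = (N : ℝ) ^ (-(b' / 8)) := by
            rw [← Real.rpow_add hN0, ← Real.rpow_add hN0]
            congr 1; rw [hβ]; ring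
    calc (1000 * (N : ℝ) ^ 2 * LL N ^ (2 * w + 5) * (128 * LL N / B) ^ ((1 : ℝ) / 4) / t ^ 2) ^ k
        ≤ ((N : ℝ) ^ (-(b' / 8))) ^ k := pow_le_pow_left₀ (by positivity) e3 k
      _ = (N : ℝ) ^ (-(b' / 8) * k) := by
          rw [← Real.rpow_natCast, ← Real.rpow_mul hN0.le]
      _ ≤ (N : ℝ) ^ (-(6 : ℝ)) := by
          apply Real.rpow_le_rpow_of_exponent_le hN1r
          linarith
  -- the pieces
  have hpc : ∀ i, ∀ p ∈ (Pb y y').filter (fun p => ix85w y p = i),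
      p.Prime ∧ (y + 1) * 2 ^ i ≤ p ∧ p < 2 * ((y + 1) * 2 ^ i) := by
    intro i p hp
    rw [mem_filter] at hp
    obtain ⟨hp1, hp2⟩ := hp
    unfold Pb at hp1
    rw [mem_filter, mem_Ioc] at hp1
    have := ix85w_spec hp1.1.1
    rw [hp2] at this
    exact ⟨hp1.2, this⟩
  have hmin : ∀ i ∈ range I, pr (PP N) (fun T => t <
      |∑ p ∈ (Pb y y').filter (fun p => ix85w y p = i), ‖XG N A θ p T‖ ^ 2 -
      ∑ p ∈ (Pb y y').filter (fun p => ix85w y p = i), ((MG N A p).card : ℝ)|) ≤ (N : ℝ) ^ (-(6 : ℝ)) := by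
    intro i _
    by_cases hH : (y + 1) * 2 ^ i ≤ y'
    · have hB2 : B ≤ (y + 1) * 2 ^ i := hBy.trans (Nat.le_mul_of_pos_right _ (by positivity))
      exact (fl_minus N θ D hD4 hDN hF k w 1 hk1 one_pos le_rfl hww B ((y + 1) * 2 ^ i) hB128 hBD hB2
        (hBy' _ hH) A _ (hpc i) t htp).trans hG
    · have he : (Pb y y').filter (fun p => ix85w y p = i) = ∅ := by
        rw [Finset.eq_empty_iff_forall_notMem]
        intro p hp
        have h5 := (hpc i p hp).2.1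
        rw [mem_filter] at hp
        have h6 := hp.1
        unfold Pb at h6
        rw [mem_filter, mem_Ioc] at h6
        exact hH (h5.trans h6.1.2)
      rw [he, pr_false]
      · positivity
      · intro T _
        simp only [Finset.sum_empty, sub_zero, abs_zero, not_lt]
        exact htp.le
  have hplu : ∀ i ∈ range I, pr (PP N) (fun T => t <
      ‖∑ p ∈ (Pb y y').filter (fun p => ix85w y p = i), XG N A θ p T ^ 2‖) ≤ (N : ℝ) ^ (-(6 : ℝ)) := by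
    intro i _
    by_cases hH : (y + 1) * 2 ^ i ≤ y'
    · have hB2 : B ≤ (y + 1) * 2 ^ i := hBy.trans (Nat.le_mul_of_pos_right _ (by positivity))
      exact (fl_plus N θ D hD4 hDN hF k w 1 hk1 one_pos le_rfl hww B ((y + 1) * 2 ^ i) hB128 hBD hB2
        (hBy' _ hH) A _ (hpc i) t htp).trans hG
    · have he : (Pb y y').filter (fun p => ix85w y p = i) = ∅ := by
        rw [Finset.eq_empty_iff_forall_notMem]
        intro p hp
        have h5 := (hpc i p hp).2.1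
        rw [mem_filter] at hp
        have h6 := hp.1
        unfold Pb at h6
        rw [mem_filter, mem_Ioc] at h6
        exact hH (h5.trans h6.1.2)
      rw [he, pr_false]
      · positivity
      · intro T _
        simp only [Finset.sum_empty, norm_zero, not_lt]
        exact htp.le
  -- single primes
  have hsing : ∀ p ∈ Pb y y', pr (PP N) (fun T => (N : ℝ) ^ (1 / 2 - β) < ‖XG N A θ p T‖) ≤
      (N : ℝ) ^ (-(6 : ℝ)) := by
    intro p hp
    unfold Pb at hp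
    rw [mem_filter, mem_Ioc] at hp
    obtain ⟨⟨hp1, hp2⟩, hpp⟩ := hp
    have hpP : p ∈ PP N := by
      unfold PP
      rw [mem_filter, mem_Icc]
      exact ⟨⟨hpp.one_le, hp2.trans hy'N⟩, hpp⟩
    have hpb : (N : ℝ) ^ b' ≤ p := by
      have h5 : ((y + 1 : ℕ) : ℝ) ≤ p := by exact_mod_cast hp1
      push_cast at h5
      linarith
    have hp0 : (0 : ℝ) < p := by exact_mod_cast hpp.pos
    refine (XG_max N A θ p k hk1 hpP ((N : ℝ) ^ (1 / 2 - β)) (by positivity)).trans ?_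
    have e3 : (N : ℝ) / p * LL N ^ (2 * k - 1) / ((N : ℝ) ^ (1 / 2 - β)) ^ 2 ≤ (N : ℝ) ^ (-(b' / 8)) := by
      have e4 : ((N : ℝ) ^ (1 / 2 - β)) ^ 2 = (N : ℝ) ^ (1 - 2 * β) := by
        rw [← Real.rpow_natCast ((N : ℝ) ^ (1 / 2 - β)) 2, ← Real.rpow_mul hN0.le]
        congr 1; push_cast; ring
      have e5 : (N : ℝ) / p ≤ (N : ℝ) ^ (1 - b') := by
        rw [Real.rpow_sub hN0, Real.rpow_one]
        exact div_le_div_of_nonneg_left hN0.le (by positivity) hpb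
      rw [e4, div_le_iff₀ (by positivity), ← Real.rpow_add hN0]
      calc (N : ℝ) / p * LL N ^ (2 * k - 1) ≤ (N : ℝ) ^ (1 - b') * (N : ℝ) ^ (b' / 16) :=
            mul_le_mul e5 hN4' (by positivity) (by positivity)
        _ = (N : ℝ) ^ (1 - b' + b' / 16) := by rw [← Real.rpow_add hN0]
        _ ≤ (N : ℝ) ^ (-(b' / 8) + (1 - 2 * β)) := by
            apply Real.rpow_le_rpow_of_exponent_le hN1r
            rw [hβ]; linarith
    calc ((N : ℝ) / p * LL N ^ (2 * k - 1) / ((N : ℝ) ^ (1 / 2 - β)) ^ 2) ^ k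
        ≤ ((N : ℝ) ^ (-(b' / 8))) ^ k := pow_le_pow_left₀ (by positivity) e3 k
      _ = (N : ℝ) ^ (-(b' / 8) * k) := by
          rw [← Real.rpow_natCast, ← Real.rpow_mul hN0.le]
      _ ≤ (N : ℝ) ^ (-(6 : ℝ)) := by
          apply Real.rpow_le_rpow_of_exponent_le hN1r
          linarith
  -- the union
  have hu1 := pr_exists (PP N) (Pb y y') (fun p T => (N : ℝ) ^ (1 / 2 - β) < ‖XG N A θ p T‖)
  have hu2 := pr_exists (PP N) (range I) (fun i T => t <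
      |∑ p ∈ (Pb y y').filter (fun p => ix85w y p = i), ‖XG N A θ p T‖ ^ 2 -
      ∑ p ∈ (Pb y y').filter (fun p => ix85w y p = i), ((MG N A p).card : ℝ)|)
  have hu3 := pr_exists (PP N) (range I) (fun i T => t <
      ‖∑ p ∈ (Pb y y').filter (fun p => ix85w y p = i), XG N A θ p T ^ 2‖)
  have hs1 := Finset.sum_le_sum hsing
  have hs2 := Finset.sum_le_sum hmin
  have hs3 := Finset.sum_le_sum hplu
  rw [Finset.sum_const, nsmul_eq_mul] at hs1 hs2 hs3
  rw [card_range] at hs2 hs3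
  have hcard : ((Pb y y').card : ℝ) ≤ N := by
    have h5 : (Pb y y').card ≤ y' - y := by
      unfold Pb
      exact (card_filter_le _ _).trans (by rw [Nat.card_Ioc])
    have h6 : (Pb y y').card ≤ N := by omega
    exact_mod_cast h6
  have hmain : pr (PP N) (fun T => (∃ p ∈ Pb y y', (N : ℝ) ^ (1 / 2 - β) < |(ω * XG N A θ p T).re|) ∨
      (N : ℝ) ^ (1 - β) < |∑ p ∈ Pb y y', (ω * XG N A θ p T).re ^ 2 - vb N (yb N c η K) b|) ≤
      pr (PP N) (fun T => ∃ p ∈ Pb y y', (N : ℝ) ^ (1 / 2 - β) < ‖XG N A θ p T‖) +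
      (pr (PP N) (fun T => ∃ i ∈ range I, t <
      |∑ p ∈ (Pb y y').filter (fun p => ix85w y p = i), ‖XG N A θ p T‖ ^ 2 -
      ∑ p ∈ (Pb y y').filter (fun p => ix85w y p = i), ((MG N A p).card : ℝ)|) +
      pr (PP N) (fun T => ∃ i ∈ range I, t <
      ‖∑ p ∈ (Pb y y').filter (fun p => ix85w y p = i), XG N A θ p T ^ 2‖)) := by
    refine le_trans ?_ (add_le_add_right (pr_or _ _ _) _)
    apply pr_le_add
    intro T _ hT
    rcases hT with ⟨p, hp, hlt⟩ | hlt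
    · left
      refine ⟨p, hp, hlt.trans_le ((Complex.abs_re_le_norm _).trans ?_)⟩
      rw [norm_mul, hω, one_mul]
    · right
      by_contra hcon
      push Not at hcon
      obtain ⟨hc1, hc2⟩ := hcon
      have hg := glue85w hy'N A θ T t ω hω hc1 hc2
      have hvb : vb N (yb N c η K) b = (∑ p ∈ Pb y y', ((MG N A p).card : ℝ)) / 2 := rfl
      rw [hvb] at hlt
      have h5 : (I : ℝ) * t ≤ (N : ℝ) ^ (1 - β) := by
        calc (I : ℝ) * t ≤ (N : ℝ) ^ β * (N : ℝ) ^ (1 - 2 * β) := mul_le_mul_of_nonneg_right hIβ htp.le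
          _ = (N : ℝ) ^ (1 - β) := by rw [← Real.rpow_add hN0]; congr 1; ring
      exact absurd (hlt.trans_le hg) (not_lt.2 h5)
  have hN6 : (N : ℝ) * (N : ℝ) ^ (-(6 : ℝ)) = (N : ℝ) ^ (-(5 : ℝ)) := by
    nth_rewrite 1 [← Real.rpow_one (N : ℝ)]
    rw [← Real.rpow_add hN0]; norm_num
  have hN5 : (N : ℝ) * (N : ℝ) ^ (-(5 : ℝ)) = (N : ℝ) ^ (-(4 : ℝ)) := by
    nth_rewrite 1 [← Real.rpow_one (N : ℝ)]
    rw [← Real.rpow_add hN0]; norm_num
  have hpos6 : (0 : ℝ) ≤ (N : ℝ) ^ (-(6 : ℝ)) := by positivity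
  have hpos5 : (0 : ℝ) ≤ (N : ℝ) ^ (-(5 : ℝ)) := by positivity
  have hm1 : ((Pb y y').card : ℝ) * (N : ℝ) ^ (-(6 : ℝ)) ≤ (N : ℝ) ^ (-(5 : ℝ)) := by
    rw [← hN6]; exact mul_le_mul_of_nonneg_right hcard hpos6
  have hm2 : (I : ℝ) * (N : ℝ) ^ (-(6 : ℝ)) ≤ (N : ℝ) ^ (-(5 : ℝ)) := by
    rw [← hN6]; exact mul_le_mul_of_nonneg_right hI4 hpos6
  have hm3 : 4 * (N : ℝ) ^ (-(5 : ℝ)) ≤ (N : ℝ) ^ (-(4 : ℝ)) := by
    rw [← hN5]; exact mul_le_mul_of_nonneg_right hN4r hpos5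
  refine hmain.trans ?_
  linarith

end Pool.Agent.Helper51.EA
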