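import Pool.Agent.Helper51.EA.Defs2
import Pool.Agent.Helper85.EA.D1

/-!
# Block EA-T3: the number of thick grid points

Points with `DD < 2 ^ ρ (2 ^ a) ^ κ`, `κ = δ / 8`: `DD_count`. The others: Markov for their number, `far_bR`.
-/

set_option autoImplicit false

namespace Pool.Agent.Helper51.EA

open Finset Pool.Agent.Helper5.RM Pool.Agent.Helper5.RS

private theorem sq_le85t (i : ℕ) (hi : 4 ≤ i) : i ^ 2 ≤ 2 ^ i := by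
  induction i, hi using Nat.le_induction with
  | base => norm_num
  | succ n hn ih => rw [pow_succ 2 n]; nlinarith

/-- The number of the thick points of large complexity. -/
private theorem far_cnt85 (κ δ r : ℝ) (hκ : 0 < κ) (hδ : 0 < δ) (hr0 : 0 < r) (hr1 : r ≤ 1)
    (hB : ∃ i0 : ℕ, ∀ i : ℕ, i0 ≤ i → ∀ a : ℕ,
      2 ^ i ≤ a → a < 2 * 2 ^ i → ∀ x D : ℝ, Far (2 ^ a) x D → ((2 : ℝ) ^ a) ^ κ ≤ D → D ≤ 2 ^ a →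
      pr (PP (2 ^ (2 * 2 ^ i))) (fun T => ∃ N : ℕ, 2 ^ a ≤ N ∧ N ≤ 2 ^ (a + 1) ∧
        r * (1 + δ) * tg N < ‖SN N T x‖) ≤ 4 * D ^ (-(17 / 8) : ℝ) + ((2 : ℝ) ^ a) ^ (-(r ^ 2 * (1 + δ / 4))))
    (ρ : ℕ) : ∃ (i0 : ℕ) (K : ℝ), 0 < K ∧ ∀ i : ℕ, i0 ≤ i → ∀ a : ℕ, 2 ^ i ≤ a → a < 2 * 2 ^ i →
    pr (PP (2 ^ (2 * 2 ^ i))) (fun T => ((2 : ℝ) ^ a) ^ (1 - r ^ 2 + δ) / 2 ≤
      ∑ jj ∈ (range (2 ^ (a + ρ))).filter (fun j : ℕ => (2 : ℝ) ^ ρ * ((2 : ℝ) ^ a) ^ κ ≤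
        DD (2 ^ (a + ρ)) ((j : ℝ) / (2 ^ (a + ρ) : ℕ))),
        (by classical exact (if (∃ N : ℕ, 2 ^ a ≤ N ∧ N ≤ 2 ^ (a + 1) ∧
          r * (1 + δ) * tg N < ‖SN N T ((jj : ℝ) / (2 ^ (a + ρ) : ℕ))‖) then (1 : ℝ) else 0))) ≤
      2 * K * ((2 : ℝ) ^ a) ^ (-δ) := by
  classical
  obtain ⟨i2, hfb⟩ := hB
  refine ⟨i2, 600 * ((2 : ℝ) ^ ρ) ^ (17 / 8 : ℝ) + 2 ^ ρ, by positivity, fun i hi a ha1 ha2 => ?_⟩
  set S : Finset ℕ := PP (2 ^ (2 * 2 ^ i)) with hS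
  have hρ0 : (0 : ℝ) < 2 ^ ρ := by positivity
  have hρ1 : (1 : ℝ) ≤ 2 ^ ρ := one_le_pow₀ (by norm_num)
  have ha0 : (0 : ℝ) < 2 ^ a := by positivity
  have ha1' : (1 : ℝ) ≤ 2 ^ a := one_le_pow₀ (by norm_num)
  set Y : ℝ := (2 : ℝ) ^ ρ * ((2 : ℝ) ^ a) ^ κ with hYdef
  have hκ1 : (1 : ℝ) ≤ ((2 : ℝ) ^ a) ^ κ := Real.one_le_rpow ha1' hκ.le
  have hY1 : 1 ≤ Y := by rw [hYdef]; nlinarith
  have hY0 : 0 < Y := by linarith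
  have hr2 : 0 ≤ 1 - r ^ 2 := by nlinarith
  have hN1 : 1 ≤ 2 ^ (a + ρ) := Nat.one_le_two_pow
  set Q : ℕ → Finset ℕ → Prop := fun jj T => ∃ N : ℕ, 2 ^ a ≤ N ∧ N ≤ 2 ^ (a + 1) ∧
      r * (1 + δ) * tg N < ‖SN N T ((jj : ℝ) / (2 ^ (a + ρ) : ℕ))‖ with hQ
  set J : Finset ℕ := (range (2 ^ (a + ρ))).filter (fun j : ℕ => Y ≤
        DD (2 ^ (a + ρ)) ((j : ℝ) / (2 ^ (a + ρ) : ℕ))) with hJ
  -- one point
  have hterm : ∀ jj ∈ J, pr S (Q jj) ≤ 4 * ((2 : ℝ) ^ ρ) ^ (17 / 8 : ℝ) *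
      (DD (2 ^ (a + ρ)) ((jj : ℝ) / (2 ^ (a + ρ) : ℕ))) ^ (-(17 / 8) : ℝ) +
      ((2 : ℝ) ^ a) ^ (-(r ^ 2 * (1 + δ / 4))) := by
    intro jj hjj
    have hYj := (Finset.mem_filter.1 hjj).2
    set DJ := DD (2 ^ (a + ρ)) ((jj : ℝ) / (2 ^ (a + ρ) : ℕ)) with hDJ
    have hle : DJ ≤ (2 : ℝ) ^ (a + ρ) := by
      have := DD_le (2 ^ (a + ρ)) hN1 jj
      refine this.trans (le_of_eq ?_)
      push_cast
      rfl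
    have hDJ0 : 0 < DJ := lt_of_lt_of_le hY0 hYj
    have hfar : Far (2 ^ a) ((jj : ℝ) / (2 ^ (a + ρ) : ℕ)) (DJ / 2 ^ ρ) :=
      far_scale85 (DD_far (2 ^ (a + ρ)) hN1 jj)
    have hD2 : DJ / 2 ^ ρ ≤ 2 ^ a := by
      rw [div_le_iff₀ hρ0, ← pow_add]
      exact hle
    have hD1 : ((2 : ℝ) ^ a) ^ κ ≤ DJ / 2 ^ ρ := by
      rw [le_div_iff₀ hρ0]
      refine le_trans (le_of_eq ?_) hYj
      rw [hYdef, mul_comm]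
    have hpow : (DJ / 2 ^ ρ) ^ (-(17 / 8) : ℝ) =
        ((2 : ℝ) ^ ρ) ^ (17 / 8 : ℝ) * DJ ^ (-(17 / 8) : ℝ) := by
      rw [Real.div_rpow hDJ0.le hρ0.le, Real.rpow_neg hρ0.le (17 / 8), div_inv_eq_mul, mul_comm]
    have h1 := hfb i hi a ha1 ha2 _ _ hfar hD1 hD2
    rw [hpow] at h1
    linarith
  -- the mean
  have hmean : av S (fun T => ∑ jj ∈ J, (if Q jj T then (1 : ℝ) else 0)) ≤
      (600 * ((2 : ℝ) ^ ρ) ^ (17 / 8 : ℝ) + 2 ^ ρ) * ((2 : ℝ) ^ a) ^ (1 - r ^ 2) := by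
    have e0 : av S (fun T => ∑ jj ∈ J, (if Q jj T then (1 : ℝ) else 0)) = ∑ jj ∈ J, pr S (Q jj) := by
      rw [av_sum]
      rfl
    rw [e0]
    refine (Finset.sum_le_sum hterm).trans ?_
    rw [Finset.sum_add_distrib, ← Finset.mul_sum]
    have hsum := DD_sum2 (2 ^ (a + ρ)) hN1 Y hY1
    have hYp : Y ^ (-(1 / 8) : ℝ) ≤ 1 := Real.rpow_le_one_of_one_le_of_nonpos hY1 (by norm_num)
    have hone : (1 : ℝ) ≤ ((2 : ℝ) ^ a) ^ (1 - r ^ 2) := Real.one_le_rpow ha1' hr2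
    have hcard : ∑ _jj ∈ J, ((2 : ℝ) ^ a) ^ (-(r ^ 2 * (1 + δ / 4))) ≤
        2 ^ ρ * ((2 : ℝ) ^ a) ^ (1 - r ^ 2) := by
      rw [Finset.sum_const, nsmul_eq_mul]
      have h1 := Finset.card_filter_le (Finset.range (2 ^ (a + ρ)))
        (fun j : ℕ => Y ≤ DD (2 ^ (a + ρ)) ((j : ℝ) / (2 ^ (a + ρ) : ℕ)))
      rw [Finset.card_range] at h1
      have h2 : (J.card : ℝ) ≤ (2 : ℝ) ^ (a + ρ) := by exact_mod_cast h1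
      calc (J.card : ℝ) * ((2 : ℝ) ^ a) ^ (-(r ^ 2 * (1 + δ / 4)))
          ≤ (2 : ℝ) ^ (a + ρ) * ((2 : ℝ) ^ a) ^ (-(r ^ 2 * (1 + δ / 4))) :=
            mul_le_mul_of_nonneg_right h2 (by positivity)
        _ = 2 ^ ρ * ((2 : ℝ) ^ a) ^ (1 + -(r ^ 2 * (1 + δ / 4))) := by
            rw [Real.rpow_add ha0, Real.rpow_one, pow_add]; ring
        _ ≤ 2 ^ ρ * ((2 : ℝ) ^ a) ^ (1 - r ^ 2) := by
            apply mul_le_mul_of_nonneg_left _ hρ0.le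
            apply Real.rpow_le_rpow_of_exponent_le ha1'
            have : 0 ≤ r ^ 2 * (δ / 4) := by positivity
            linarith
    have h4 : 4 * ((2 : ℝ) ^ ρ) ^ (17 / 8 : ℝ) * ∑ jj ∈ J,
          (DD (2 ^ (a + ρ)) ((jj : ℝ) / (2 ^ (a + ρ) : ℕ))) ^ (-(17 / 8) : ℝ) ≤
        600 * ((2 : ℝ) ^ ρ) ^ (17 / 8 : ℝ) * ((2 : ℝ) ^ a) ^ (1 - r ^ 2) := by
      have hp : 0 ≤ ((2 : ℝ) ^ ρ) ^ (17 / 8 : ℝ) := by positivity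
      calc _ ≤ 4 * ((2 : ℝ) ^ ρ) ^ (17 / 8 : ℝ) * (150 * Y ^ (-(1 / 8) : ℝ)) :=
            mul_le_mul_of_nonneg_left hsum (by positivity)
        _ ≤ 4 * ((2 : ℝ) ^ ρ) ^ (17 / 8 : ℝ) * (150 * 1) := by gcongr
        _ = 600 * ((2 : ℝ) ^ ρ) ^ (17 / 8 : ℝ) * 1 := by ring
        _ ≤ _ := mul_le_mul_of_nonneg_left hone (by positivity)
    rw [add_mul]
    exact add_le_add h4 hcard
  have hc : 0 < ((2 : ℝ) ^ a) ^ (1 - r ^ 2 + δ) / 2 := by positivity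
  have hmk := markov (S := S) (F := fun T => ∑ jj ∈ J, (if Q jj T then (1 : ℝ) else 0))
    (fun T _ => Finset.sum_nonneg fun j _ => by split_ifs <;> norm_num) hc hmean
  refine le_trans (le_of_eq ?_) (hmk.trans (le_of_eq ?_))
  · rfl
  · rw [Real.rpow_add ha0, Real.rpow_neg ha0.le]
    have h5 : (0 : ℝ) < ((2 : ℝ) ^ a) ^ (1 - r ^ 2) := by positivity
    have h6 : (0 : ℝ) < ((2 : ℝ) ^ a) ^ δ := by positivity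
    field_simp

/-- **Block T3**, from the block T2. -/
theorem unifR_of
    (hB : ∀ κ δ r : ℝ, 0 < κ → 0 < δ → 0 < r → r ≤ 1 → ∃ i0 : ℕ, ∀ i : ℕ, i0 ≤ i → ∀ a : ℕ,
      2 ^ i ≤ a → a < 2 * 2 ^ i → ∀ x D : ℝ, Far (2 ^ a) x D → ((2 : ℝ) ^ a) ^ κ ≤ D → D ≤ 2 ^ a →
      pr (PP (2 ^ (2 * 2 ^ i))) (fun T => ∃ N : ℕ, 2 ^ a ≤ N ∧ N ≤ 2 ^ (a + 1) ∧
        r * (1 + δ) * tg N < ‖SN N T x‖) ≤ 4 * D ^ (-(17 / 8) : ℝ) + ((2 : ℝ) ^ a) ^ (-(r ^ 2 * (1 + δ / 4))))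
    (δ r : ℝ) (hδ : 0 < δ) (hr0 : 0 < r) (hr1 : r ≤ 1) (ρ : ℕ) : ∃ (c : ℝ) (i0 : ℕ), 0 < c ∧ ∀ i : ℕ, i0 ≤ i →
    pr (PP (2 ^ (2 * 2 ^ i))) (fun T => ∃ a : ℕ, 2 ^ i ≤ a ∧ a < 2 * 2 ^ i ∧
      ((2 : ℝ) ^ a) ^ (1 - r ^ 2 + δ) < (cnt (2 ^ (a + ρ)) (fun x => ∃ N : ℕ, 2 ^ a ≤ N ∧ N ≤ 2 ^ (a + 1) ∧
        r * (1 + δ) * tg N < ‖SN N T x‖) : ℝ)) ≤ ((2 : ℝ) ^ i) ^ (-c) := by
  classical
  obtain ⟨i1, K, hK, hfar⟩ := far_cnt85 (δ / 8) δ r (by positivity) hδ hr0 hr1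
    (hB (δ / 8) δ r (by positivity) hδ hr0 hr1) ρ
  obtain ⟨i2, hi2⟩ := exists_nat_gt (3 / δ)
  obtain ⟨i3, hi3⟩ := pow_unbounded_of_one_lt (2 * K) (show (1 : ℝ) < 2 by norm_num)
  have h2c : (1 : ℝ) < 2 ^ (3 * δ / 4) := Real.one_lt_rpow (by norm_num) (by positivity)
  obtain ⟨i4, hi4⟩ := pow_unbounded_of_one_lt (6 * ((2 : ℝ) ^ ρ) ^ 2) h2c
  refine ⟨1, max (max i1 i2) (max (max i3 i4) 4), one_pos, ?_⟩
  intro i hi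
  have hi1 : i1 ≤ i := by omega
  have hi2' : i2 ≤ i := by omega
  have hi3' : i3 ≤ i := by omega
  have hi4' : i4 ≤ i := by omega
  have hi5 : 4 ≤ i := by omega
  clear hi
  have hr2 : 0 ≤ 1 - r ^ 2 := by nlinarith
  set S : Finset ℕ := PP (2 ^ (2 * 2 ^ i)) with hS
  have hi2n : i ≤ 2 ^ i := Nat.lt_two_pow_self.le
  -- the near points
  have hnear : ∀ a : ℕ, 2 ^ i ≤ a →
      (((range (2 ^ (a + ρ))).filter (fun j : ℕ => DD (2 ^ (a + ρ)) ((j : ℝ) / (2 ^ (a + ρ) : ℕ)) <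
        (2 : ℝ) ^ ρ * ((2 : ℝ) ^ a) ^ (δ / 8))).card : ℝ) ≤ ((2 : ℝ) ^ a) ^ (1 - r ^ 2 + δ) / 2 := by
    intro a ha
    have ha0 : (0 : ℝ) < 2 ^ a := by positivity
    have ha1' : (1 : ℝ) ≤ 2 ^ a := one_le_pow₀ (by norm_num)
    have hρ1 : (1 : ℝ) ≤ 2 ^ ρ := one_le_pow₀ (by norm_num)
    have hκ1 : (1 : ℝ) ≤ ((2 : ℝ) ^ a) ^ (δ / 8) := Real.one_le_rpow ha1' (by positivity)
    have hY1 : 1 ≤ (2 : ℝ) ^ ρ * ((2 : ℝ) ^ a) ^ (δ / 8) := by nlinarith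
    refine (DD_count (2 ^ (a + ρ)) Nat.one_le_two_pow _ hY1).trans ?_
    have e1 : 3 * ((2 : ℝ) ^ ρ * ((2 : ℝ) ^ a) ^ (δ / 8)) ^ 2 =
        (6 * ((2 : ℝ) ^ ρ) ^ 2) * ((2 : ℝ) ^ a) ^ (δ / 4) / 2 := by
      rw [mul_pow, ← Real.rpow_natCast (((2 : ℝ) ^ a) ^ (δ / 8)) 2, ← Real.rpow_mul ha0.le,
        show δ / 8 * ((2 : ℕ) : ℝ) = δ / 4 by push_cast; ring]
      ring
    rw [e1]
    apply div_le_div_of_nonneg_right _ (by norm_num)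
    have e2 : 6 * ((2 : ℝ) ^ ρ) ^ 2 ≤ ((2 : ℝ) ^ a) ^ (3 * δ / 4) := by
      have e3 : ((2 : ℝ) ^ a) ^ (3 * δ / 4) = (2 ^ (3 * δ / 4)) ^ a := by
        rw [← Real.rpow_natCast, ← Real.rpow_mul (by norm_num), mul_comm, Real.rpow_mul (by norm_num),
          Real.rpow_natCast]
      rw [e3]
      exact hi4.le.trans (pow_le_pow_right₀ h2c.le (hi4'.trans (hi2n.trans ha)))
    calc 6 * ((2 : ℝ) ^ ρ) ^ 2 * ((2 : ℝ) ^ a) ^ (δ / 4)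
        ≤ ((2 : ℝ) ^ a) ^ (3 * δ / 4) * ((2 : ℝ) ^ a) ^ (δ / 4) :=
          mul_le_mul_of_nonneg_right e2 (by positivity)
      _ = ((2 : ℝ) ^ a) ^ δ := by rw [← Real.rpow_add ha0]; congr 1; ring
      _ ≤ ((2 : ℝ) ^ a) ^ (1 - r ^ 2 + δ) := Real.rpow_le_rpow_of_exponent_le ha1' (by linarith)
  -- one a
  have hone : ∀ a ∈ Finset.Ico (2 ^ i) (2 * 2 ^ i), pr S (fun T =>
      ((2 : ℝ) ^ a) ^ (1 - r ^ 2 + δ) < (cnt (2 ^ (a + ρ)) (fun x => ∃ N : ℕ, 2 ^ a ≤ N ∧ N ≤ 2 ^ (a + 1) ∧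
        r * (1 + δ) * tg N < ‖SN N T x‖) : ℝ)) ≤ 1 / ((2 : ℝ) ^ i) ^ 2 := by
    intro a ha
    obtain ⟨ha1, ha2⟩ := Finset.mem_Ico.1 ha
    have ha0 : (0 : ℝ) < 2 ^ a := by positivity
    have hF := hfar i hi1 a ha1 ha2
    refine le_trans (pr_mono ?_) (hF.trans ?_)
    · intro T _ hT
      have hN := hnear a ha1
      set G : ℕ := 2 ^ (a + ρ) with hG
      set Q : ℕ → Prop := fun jj => ∃ N : ℕ, 2 ^ a ≤ N ∧ N ≤ 2 ^ (a + 1) ∧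
        r * (1 + δ) * tg N < ‖SN N T ((jj : ℝ) / G)‖ with hQ
      set Y : ℝ := (2 : ℝ) ^ ρ * ((2 : ℝ) ^ a) ^ (δ / 8) with hY
      have hc : (cnt G (fun x => ∃ N : ℕ, 2 ^ a ≤ N ∧ N ≤ 2 ^ (a + 1) ∧
          r * (1 + δ) * tg N < ‖SN N T x‖) : ℝ) ≤
          (((range G).filter (fun j : ℕ => DD G ((j : ℝ) / G) < Y)).card : ℝ) +
          ∑ jj ∈ (range G).filter (fun j : ℕ => Y ≤ DD G ((j : ℝ) / G)), (if Q jj then (1 : ℝ) else 0) := by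
        rw [← Finset.sum_filter, Finset.sum_const, nsmul_eq_mul, mul_one]
        rw [← Nat.cast_add, Nat.cast_le]
        unfold cnt
        refine le_trans (card_le_card ?_) (card_union_le _ _)
        intro j hj
        rw [mem_filter] at hj
        rw [mem_union, mem_filter, mem_filter, mem_filter]
        rcases lt_or_ge (DD G ((j : ℝ) / G)) Y with h | h
        · exact Or.inl ⟨hj.1, h⟩
        · exact Or.inr ⟨⟨hj.1, h⟩, hj.2⟩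
      have h7 : ((2 : ℝ) ^ a) ^ (1 - r ^ 2 + δ) / 2 ≤
          ∑ jj ∈ (range G).filter (fun j : ℕ => Y ≤ DD G ((j : ℝ) / G)), (if Q jj then (1 : ℝ) else 0) := by
        linarith
      convert h7 using 2
    · -- numerics
      have e1 : ((2 : ℝ) ^ a) ^ (-δ) ≤ (2 : ℝ) ^ (-(δ * (i : ℝ) ^ 2)) := by
        rw [← Real.rpow_natCast, ← Real.rpow_mul (by norm_num)]
        apply Real.rpow_le_rpow_of_exponent_le (by norm_num)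
        have h8 : ((i : ℝ)) ^ 2 ≤ a := by exact_mod_cast (sq_le85t i hi5).trans ha1
        nlinarith
      have e2 : (2 : ℝ) ^ (-(δ * (i : ℝ) ^ 2)) ≤ (2 : ℝ) ^ (-((3 * i : ℕ) : ℝ)) := by
        apply Real.rpow_le_rpow_of_exponent_le (by norm_num)
        have h8 : (i2 : ℝ) ≤ i := by exact_mod_cast hi2'
        have h9 : 3 / δ < i := lt_of_lt_of_le hi2 h8
        rw [div_lt_iff₀ hδ] at h9
        push_cast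
        have h10 : (0 : ℝ) ≤ i := by positivity
        nlinarith
      have e3 : (2 : ℝ) ^ (-((3 * i : ℕ) : ℝ)) = 1 / ((2 : ℝ) ^ i) ^ 3 := by
        rw [Real.rpow_neg (by norm_num), Real.rpow_natCast, one_div, ← pow_mul, mul_comm]
      have e4 : 2 * K ≤ (2 : ℝ) ^ i := hi3.le.trans (pow_le_pow_right₀ (by norm_num) hi3')
      have h2i : (0 : ℝ) < (2 : ℝ) ^ i := by positivity
      calc 2 * K * ((2 : ℝ) ^ a) ^ (-δ) ≤ 2 * K * (1 / ((2 : ℝ) ^ i) ^ 3) := by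
            rw [← e3]
            exact mul_le_mul_of_nonneg_left (e1.trans e2) (by positivity)
        _ ≤ (2 : ℝ) ^ i * (1 / ((2 : ℝ) ^ i) ^ 3) := mul_le_mul_of_nonneg_right e4 (by positivity)
        _ = 1 / ((2 : ℝ) ^ i) ^ 2 := by field_simp
  -- the union
  calc pr S (fun T => ∃ a : ℕ, 2 ^ i ≤ a ∧ a < 2 * 2 ^ i ∧
      ((2 : ℝ) ^ a) ^ (1 - r ^ 2 + δ) < (cnt (2 ^ (a + ρ)) (fun x => ∃ N : ℕ, 2 ^ a ≤ N ∧ N ≤ 2 ^ (a + 1) ∧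
        r * (1 + δ) * tg N < ‖SN N T x‖) : ℝ))
      ≤ pr S (fun T => ∃ a ∈ Finset.Ico (2 ^ i) (2 * 2 ^ i),
        ((2 : ℝ) ^ a) ^ (1 - r ^ 2 + δ) < (cnt (2 ^ (a + ρ)) (fun x => ∃ N : ℕ, 2 ^ a ≤ N ∧ N ≤ 2 ^ (a + 1) ∧
        r * (1 + δ) * tg N < ‖SN N T x‖) : ℝ)) := by
        refine pr_mono fun T _ => ?_
        rintro ⟨a, h1, h2, h3⟩
        exact ⟨a, Finset.mem_Ico.2 ⟨h1, h2⟩, h3⟩
    _ ≤ ∑ a ∈ Finset.Ico (2 ^ i) (2 * 2 ^ i), 1 / ((2 : ℝ) ^ i) ^ 2 :=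
        (pr_exists _ _ _).trans (Finset.sum_le_sum hone)
    _ = ((2 : ℝ) ^ i) ^ (-1 : ℝ) := by
        rw [Finset.sum_const, Nat.card_Ico, nsmul_eq_mul]
        have : 2 * 2 ^ i - 2 ^ i = 2 ^ i := by omega
        rw [this, Real.rpow_neg_one]
        push_cast
        field_simp

end Pool.Agent.Helper51.EA
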