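import Pool.Agent.Helper85.EA.A3
import Pool.Agent.Helper60.EA.A1

/-! # Project EA (MP_b6b996_nt), block A3: `fl_plus` (from `fl_plus_of` and A1) -/

set_option autoImplicit false

namespace Pool.Agent.Helper51.EA

open Finset Pool.Agent.Helper5.RM Pool.Agent.Helper5.RS

theorem fl_plus (N : ℕ) (θ D : ℝ) (hD4 : 4 ≤ D) (hDN : D ≤ N) (hF : Far N θ D) (k w : ℕ) (η : ℝ) (hk : 1 ≤ k) (hη : 0 < η)
    (hη1 : η ≤ 1) (hw : (4 * (k : ℝ)) ^ (1 + η) ≤ w) (B H : ℕ) (hB : 128 * LL N ≤ B) (hBD : (B : ℝ) ≤ D)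
    (hH1 : B ≤ H) (hH2 : B * H ≤ N) (A P : Finset ℕ) (hP : ∀ p ∈ P, p.Prime ∧ H ≤ p ∧ p < 2 * H) (t : ℝ) (ht : 0 < t) :
    pr (PP N) (fun T => t < ‖∑ p ∈ P, XG N A θ p T ^ 2‖) ≤
      (1000 * (N : ℝ) ^ 2 * LL N ^ (2 * w + 5) * (128 * LL N / B) ^ (η / 4) / t ^ 2) ^ k :=
  fl_plus_of (fun k hk S H Y hH hY Lam Nn lo hi α γ η L0 w h1 h2 h3 h4 h5 h6 h7 h8 h9 =>
    conc_plus k hk S H Y hH hY Lam Nn lo hi α γ η L0 w h1 h2 h3 h4 h5 h6 h7 h8 h9)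
    N θ D hD4 hDN hF k w η hk hη hη1 hw B H hB hBD hH1 hH2 A P hP t ht

end Pool.Agent.Helper51.EA
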