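import Pool.Agent.Helper85.EA.StepR

/-!
# One step with one point of every large component: the small components have at most `q` points
-/

set_option autoImplicit false
set_option linter.unusedSectionVars false

namespace Pool.Agent.Helper6.EA

open FirstOrder Pool.Agent.Helper20.Spectra Pool.Agent.Helper31.QD Pool.Agent.Helper38.MC
  Pool.Agent.Helper58.QD Pool.Agent.Helper40.MC Pool.Agent.Helper6.MC
open Pool.Agent.Helper12.EK (Gr Ball Cmp mem_Cmp mem_Ball hit_ball)

/-- one point of every component with more than `q` points -/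
theorem rep_set85 {V : Type} [Fintype V] [DecidableEq V] (E : V → V → Prop) (q : ℕ) :
    ∃ C : Finset V, q * C.card ≤ Fintype.card V ∧ ∀ x, q < (Cmp E x).card → ∃ a ∈ C, a ∈ Cmp E x := by
  classical
  obtain ⟨rep, hr1, hr2⟩ : ∃ rep : V → V, (∀ x, (Gr E).Reachable x (rep x)) ∧
      ∀ x y, (Gr E).Reachable x y → rep x = rep y := by
    refine ⟨fun x => ((Gr E).connectedComponentMk x).out, fun x => ?_, fun x y h => ?_⟩
    · have h : (Gr E).connectedComponentMk ((Gr E).connectedComponentMk x).out =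
          (Gr E).connectedComponentMk x := Quot.out_eq _
      exact (SimpleGraph.ConnectedComponent.exact h).symm
    · have h1 : (Gr E).connectedComponentMk x = (Gr E).connectedComponentMk y :=
        SimpleGraph.ConnectedComponent.sound h
      simp only [h1]
  have hcmp : ∀ x y, (Gr E).Reachable x y → Cmp E x = Cmp E y := by
    intro x y h
    ext z
    rw [mem_Cmp, mem_Cmp]
    exact ⟨fun h1 => h.symm.trans h1, fun h1 => h.trans h1⟩
  refine ⟨(Finset.univ.filter fun x => q < (Cmp E x).card).image rep, ?_, fun x hx => ?_⟩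
  · obtain ⟨C, hC⟩ : ∃ C, C = (Finset.univ.filter fun x => q < (Cmp E x).card).image rep := ⟨_, rfl⟩
    rw [← hC]
    have h1 : ∀ c ∈ C, q ≤ (Cmp E c).card ∧ rep c = c := by
      intro c hc
      rw [hC, Finset.mem_image] at hc
      obtain ⟨x, hx, rfl⟩ := hc
      rw [Finset.mem_filter] at hx
      refine ⟨?_, (hr2 _ _ (hr1 x)).symm⟩
      rw [← hcmp x (rep x) (hr1 x)]
      exact hx.2.le
    have h2 : (C.biUnion (Cmp E)).card = ∑ c ∈ C, (Cmp E c).card := by
      refine Finset.card_biUnion fun c hc c' hc' hne => ?_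
      refine Finset.disjoint_left.2 ?_
      intro z hz hz'
      apply hne
      rw [mem_Cmp] at hz hz'
      have h3 := hr2 c c' (hz.trans hz'.symm)
      rw [(h1 c hc).2, (h1 c' hc').2] at h3
      exact h3
    have h3 : C.card * q ≤ ∑ c ∈ C, (Cmp E c).card := by
      have := Finset.card_nsmul_le_sum C (fun c => (Cmp E c).card) q fun c hc => (h1 c hc).1
      simpa using this
    have h4 : (C.biUnion (Cmp E)).card ≤ Fintype.card V := Finset.card_le_univ _
    rw [mul_comm]
    omega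
  · exact ⟨rep x, Finset.mem_image_of_mem _ (Finset.mem_filter.2 ⟨Finset.mem_univ _, hx⟩),
      mem_Cmp.2 (hr1 x)⟩

/-- one step with two bounds: `M₁` for the balls, `M₀ ≥ q` for the components -/
theorem stepN_of {r : ℕ} (h9 : StmtRounds9 r) (h10 : StmtSmall10 r) :
    ∀ (S : Type) (ar : S → ℕ), (∀ s, ar s ≤ r) → ∀ (V : Type)
    [Fintype V] (R : Interp S ar V) (A₀ : Finset V) (s s' q l M₀ M₁ D : ℕ), 1 ≤ q → q ≤ M₀ →
    (∀ x, (oA R A₀ x).card ≤ s) →
    s * (cB r (dE r l q r)) ^ 2 * (r * l + 1) ^ r * q * (q ^ r - 1) ^ l ≤ (q ^ r) ^ l →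
    (q - 1) ^ (M₁ + 1) * q ≤ q ^ (M₁ + 1) →
    ((M₁ + 1) * (dE r l q r + 1) ^ 2) ^ (Nat.log 2 M₁ + 1) ≤ s' →
    M₀ * (D + tE r l q r + 3 * r + 3) ≤ s' → (∀ t, 1 ≤ t → t ≤ M₀ → ¬ FamR R D t) →
    ∃ A, A₀ ⊆ A ∧ q * A.card ≤ q * A₀.card + (r * (r + 3) + 3) * Fintype.card V ∧
      ∀ x, (oA R A x).card ≤ s' := by
  classical
  intro S ar har V _ R A₀ s s' q l M₀ M₁ D hq hqM hs hl hM h1 h2 hD
  obtain ⟨A, E, hA, hAq, hG⟩ := h9 S ar har V R A₀ s l q hq hs hl
  obtain ⟨B, hB, hball⟩ := hit_ball E q M₁ hq hM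
  obtain ⟨C, hC, hrep⟩ := rep_set85 E q
  have hball' : ∀ z ρ, (∀ y ∈ Ball E z ρ, y ∉ A ∪ (B ∪ C)) → (Ball E z ρ).card ≤ M₁ :=
    fun z ρ h => hball z ρ (fun y hy hyB => h y hy (Finset.mem_union_right _ (Finset.mem_union_left _ hyB)))
  refine ⟨A ∪ (B ∪ C), hA.trans Finset.subset_union_left, ?_, fun x => ?_⟩
  · have h3 := Finset.card_union_le A (B ∪ C)
    have h4 := Finset.card_union_le B C
    calc q * (A ∪ (B ∪ C)).card ≤ q * (A.card + (B.card + C.card)) := Nat.mul_le_mul_left _ (by omega)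
      _ = q * A.card + (q * B.card + q * C.card) := by ring
      _ ≤ (q * A₀.card + r * (r + 3) * Fintype.card V) + (2 * Fintype.card V + Fintype.card V) :=
          Nat.add_le_add hAq (Nat.add_le_add hB hC)
      _ = _ := by ring
  · by_cases hx : ∃ a ∈ A ∪ (B ∪ C), a ∈ Cmp E x
    · refine le_trans ?_ h1
      exact doublingG R Finset.subset_union_left E hG.symm (fun x => by convert hG.deg x) hG.inv hball' hx
    · push Not at hx
      have h3 : (Cmp E x).card ≤ M₀ := by
        by_contra hcon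
        obtain ⟨a, ha, ha'⟩ := hrep x (by omega)
        exact hx a (Finset.mem_union_right _ (Finset.mem_union_right _ ha)) ha'
      refine le_trans (Finset.card_le_card (oA_mono14 Finset.subset_union_left x)) (le_trans ?_ h2)
      by_contra hcon
      rw [not_le] at hcon
      obtain ⟨t, ht, htk, hF⟩ := h10 S ar har V R A E _ _ hG x M₀ D h3 hcon
      exact hD t ht htk hF

end Pool.Agent.Helper6.EA
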