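import Pool.Agent.Helper51.EA.Defs
import Pool.Agent.Helper5.RM.DL

/-!
# Block EA-A3: the squares of the inner sums over a dyadic block of primes

`Y = N / H`, `Nn` the squarefree `m ≤ Y` in `A`, `lo m` = one more than the largest prime of `m`,
`hi m = N / m`: then `∑_p XG² = UU P Nn lo hi θ`. `conc_plus` with `γ = 128 LL N / B`, Markov with the power `2k`.
-/

set_option autoImplicit false

namespace Pool.Agent.Helper51.EA

open Finset Pool.Agent.Helper5.RM Pool.Agent.Helper5.RS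

/-- The inner sums as sums over `lo m ≤ p ≤ hi m`. -/
theorem XG_eq85 {N H : ℕ} (θ : ℝ) (A : Finset ℕ) {p : ℕ} (hH0 : 0 < H) (hpp : p.Prime) (hHp : H ≤ p)
    (T : Finset ℕ) : XG N A θ p T =
      ∑ m ∈ ((Icc 1 (N / H)).filter (fun m => m ∈ A ∧ Squarefree m)).filter
        (fun m => m.primeFactors.sup id + 1 ≤ p ∧ p ≤ N / m), (rf T m : ℂ) * e (p * m * θ) := by
  unfold XG
  refine Finset.sum_congr ?_ fun m _ => rfl
  ext m
  unfold MG
  simp only [Finset.mem_filter, Finset.mem_Icc]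
  have hp0 : 0 < p := hpp.pos
  constructor
  · rintro ⟨⟨h1, h2⟩, hA, h3, h4⟩
    have h2' : m * p ≤ N := (Nat.le_div_iff_mul_le hp0).1 h2
    refine ⟨⟨⟨h1, ?_⟩, hA, h3⟩, ?_, ?_⟩
    · rw [Nat.le_div_iff_mul_le hH0]
      exact (Nat.mul_le_mul_left m hHp).trans h2'
    · have : m.primeFactors.sup id < p := by
        rw [Finset.sup_lt_iff (by simpa using hp0)]
        intro q hq
        exact h4 q hq
      omega
    · rw [Nat.le_div_iff_mul_le (by omega), mul_comm]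
      exact h2'
  · rintro ⟨⟨⟨h1, h2⟩, hA, h3⟩, h4, h5⟩
    refine ⟨⟨h1, ?_⟩, hA, h3, ?_⟩
    · rw [Nat.le_div_iff_mul_le hp0]
      rw [Nat.le_div_iff_mul_le (by omega), mul_comm] at h5
      exact h5
    · intro q hq
      have : q ≤ m.primeFactors.sup id := Finset.le_sup (f := id) hq
      omega

/-- The condition `hγ` of `conc` and `conc_plus`. -/
theorem gam85 (N : ℕ) (θ D : ℝ) (hD4 : 4 ≤ D) (hDN : D ≤ N) (hF : Far N θ D) (B H : ℕ) (hB : 128 * LL N ≤ B)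
    (hBD : (B : ℝ) ≤ D) (hH1 : B ≤ H) (hH2 : B * H ≤ N) :
    ((N / H : ℕ) : ℝ) + 2 * ∑ j ∈ Finset.Ico 1 H, mn ((N / H : ℕ) : ℝ) (j * θ) ≤
      H * ((N / H : ℕ) : ℝ) * (128 * LL N / B) := by
  have hN0 : (0 : ℝ) < N := by linarith
  have hN1 : (1 : ℝ) ≤ N := by linarith
  have hD0 : 0 < D := by linarith
  set L := LL N with hL
  have hL1 : 1 ≤ L := by
    rw [hL]; unfold LL
    have := Real.log_nonneg hN1
    linarith
  have hL0 : 0 < L := by linarith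
  have hBR : (0 : ℝ) < B := by linarith
  have hB0 : 0 < B := by exact_mod_cast hBR
  have hH0 : 0 < H := by omega
  have hHr : (0 : ℝ) < H := by exact_mod_cast hH0
  set Y := N / H with hY
  have hBY : B ≤ Y := (Nat.le_div_iff_mul_le hH0).2 hH2
  have hYge : (N : ℝ) ≤ 2 * (H * Y) := by
    have h1 : N < (Y + 1) * H := by
      have h2 := Nat.div_add_mod N H
      have h3 := Nat.mod_lt N hH0
      rw [← hY] at h2
      nlinarith
    have h2 : (Y + 1) * H ≤ 2 * Y * H := by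
      apply Nat.mul_le_mul_right
      omega
    have h3 : N ≤ 2 * Y * H := h1.le.trans h2
    have h4 : (N : ℝ) ≤ 2 * Y * H := by exact_mod_cast h3
    linarith
  have hBYr : (B : ℝ) ≤ Y := by exact_mod_cast hBY
  have hBHr : (B : ℝ) ≤ H := by exact_mod_cast hH1
  have hYR : (0 : ℝ) < Y := by linarith
  have h1 : ∑ j ∈ Finset.Ico 1 H, mn (Y : ℝ) (j * θ) ≤ ∑ j ∈ Finset.Icc 1 H, mn (Y : ℝ) (j * θ) := by
    refine Finset.sum_le_sum_of_subset_of_nonneg ?_ fun j _ _ => mn_nonneg (by positivity) _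
    intro j hj
    rw [Finset.mem_Ico] at hj
    rw [Finset.mem_Icc]
    omega
  have h2 := dl N θ D (by linarith) hDN hF (Y : ℝ) (by positivity) H
  rw [← hL] at h2
  set x : ℝ := H * Y with hx
  have hx0 : 0 < x := by positivity
  have a1 : (N : ℝ) / D ≤ 2 * x / B := by
    rw [div_le_div_iff₀ hD0 hBR]
    exact mul_le_mul hYge hBD hBR.le (by positivity)
  have a2 : (H : ℝ) ≤ x / B := by
    rw [le_div_iff₀ hBR, hx]
    exact mul_le_mul_of_nonneg_left hBYr hHr.le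
  have a3 : (Y : ℝ) ≤ x / B := by
    rw [le_div_iff₀ hBR, hx, mul_comm]
    exact mul_le_mul_of_nonneg_right hBHr hYR.le
  have a4 : (H : ℝ) * Y / D ≤ x / B := by
    rw [← hx]
    gcongr
  have h3 : (N : ℝ) / D + H + Y + H * Y / D ≤ 5 * x / B := by
    have : 5 * x / B = 2 * x / B + x / B + x / B + x / B := by ring
    linarith
  have h4 : 8 * L * ((N : ℝ) / D + H + Y + H * Y / D) ≤ 8 * L * (5 * x / B) := by
    apply mul_le_mul_of_nonneg_left h3 (by positivity)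
  have h5 : (Y : ℝ) ≤ L * (x / B) := by
    refine a3.trans ?_
    exact le_mul_of_one_le_left (by positivity) hL1
  calc (Y : ℝ) + 2 * ∑ j ∈ Finset.Ico 1 H, mn Y (j * θ) ≤
      L * (x / B) + 2 * (8 * L * (5 * x / B)) := by linarith
    _ = x * (81 * L / B) := by ring
    _ ≤ x * (128 * L / B) := by
        apply mul_le_mul_of_nonneg_left _ hx0.le
        gcongr
        norm_num

/-- **Block A3**, from A1. -/
theorem fl_plus_of
    (hcp : ∀ (k : ℕ) (_ : 1 ≤ k) (S : Finset ℕ) (H Y : ℕ) (_ : 1 ≤ H) (_ : 1 ≤ Y)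
      (Lam Nn : Finset ℕ) (lo hi : ℕ → ℕ) (α γ η L0 : ℝ) (w : ℕ)
      (_ : ∀ l ∈ Lam, H ≤ l ∧ l < 2 * H)
      (_ : ∀ n ∈ Nn, 1 ≤ n ∧ n ≤ Y ∧ Squarefree n ∧ n.primeFactors ⊆ S)
      (_ : Y + 2 * ∑ j ∈ Finset.Ico 1 H, mn Y (j * α) ≤ H * Y * γ) (_ : γ ≤ 1)
      (_ : 0 < η) (_ : η ≤ 1) (_ : (4 * (k : ℝ)) ^ (1 + η) ≤ w)
      (_ : 1 + Real.log H ≤ L0) (_ : 1 + Real.log Y ≤ L0),
      av S (fun T => ‖UU Lam Nn lo hi α T‖ ^ (2 * k)) ≤
        (1000 * ((H : ℝ) * Y) ^ 2 * L0 ^ (2 * w + 5) * γ ^ (η / 4)) ^ k)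
    (N : ℕ) (θ D : ℝ) (hD4 : 4 ≤ D) (hDN : D ≤ N) (hF : Far N θ D) (k w : ℕ) (η : ℝ) (hk : 1 ≤ k) (hη : 0 < η)
    (hη1 : η ≤ 1) (hw : (4 * (k : ℝ)) ^ (1 + η) ≤ w) (B H : ℕ) (hB : 128 * LL N ≤ B) (hBD : (B : ℝ) ≤ D)
    (hH1 : B ≤ H) (hH2 : B * H ≤ N) (A P : Finset ℕ) (hP : ∀ p ∈ P, p.Prime ∧ H ≤ p ∧ p < 2 * H) (t : ℝ) (ht : 0 < t) :
    pr (PP N) (fun T => t < ‖∑ p ∈ P, XG N A θ p T ^ 2‖) ≤
      (1000 * (N : ℝ) ^ 2 * LL N ^ (2 * w + 5) * (128 * LL N / B) ^ (η / 4) / t ^ 2) ^ k := by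
  classical
  have hN0 : (0 : ℝ) < N := by linarith
  have hN1 : (1 : ℝ) ≤ N := by linarith
  have hsum := gam85 N θ D hD4 hDN hF B H hB hBD hH1 hH2
  set L := LL N with hL
  have hL1 : 1 ≤ L := by
    rw [hL]; unfold LL
    have := Real.log_nonneg hN1
    linarith
  have hL0 : 0 < L := by linarith
  have hBR : (0 : ℝ) < B := by linarith
  have hB0 : 0 < B := by exact_mod_cast hBR
  have hH0 : 0 < H := by omega
  have hHr : (0 : ℝ) < H := by exact_mod_cast hH0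
  have hHN' : H ≤ N := le_trans (Nat.le_mul_of_pos_left H hB0) hH2
  have hHN : (H : ℝ) ≤ N := by exact_mod_cast hHN'
  set Y := N / H with hY
  have hY1 : 1 ≤ Y := (Nat.one_le_div_iff hH0).2 hHN'
  have hYN : Y ≤ N := Nat.div_le_self _ _
  have hYR : (1 : ℝ) ≤ Y := by exact_mod_cast hY1
  have hYle : (H : ℝ) * Y ≤ N := by
    have : H * Y ≤ N := Nat.mul_div_le N H
    exact_mod_cast this
  set Nn : Finset ℕ := (Icc 1 Y).filter (fun m => m ∈ A ∧ Squarefree m) with hNn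
  set lo : ℕ → ℕ := fun m => m.primeFactors.sup id + 1 with hlo
  set hi : ℕ → ℕ := fun m => N / m with hhi
  have hUU : ∀ T, ∑ p ∈ P, XG N A θ p T ^ 2 = UU P Nn lo hi θ T := by
    intro T
    unfold UU
    refine Finset.sum_congr rfl fun p hp => ?_
    obtain ⟨hpp, hHp, _⟩ := hP p hp
    rw [XG_eq85 θ A hH0 hpp hHp T]
  have hγ1 : 128 * L / B ≤ 1 := by
    rw [div_le_one hBR]; exact hB
  have hlogH : 1 + Real.log H ≤ L := by
    rw [hL]; unfold LL
    have := Real.log_le_log hHr hHN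
    linarith
  have hlogY : 1 + Real.log Y ≤ L := by
    rw [hL]; unfold LL
    have hYN' : (Y : ℝ) ≤ N := by exact_mod_cast hYN
    have := Real.log_le_log (by linarith) hYN'
    linarith
  have hconc := hcp k hk (PP N) H Y hH0 hY1 P Nn lo hi θ (128 * L / B) η L w
    (fun l hl => (hP l hl).2)
    (by
      intro n hn
      rw [hNn, Finset.mem_filter, Finset.mem_Icc] at hn
      exact ⟨hn.1.1, hn.1.2, hn.2.2, primeFactors_subset_PP (hn.1.2.trans hYN)⟩)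
    hsum hγ1 hη hη1 hw hlogH hlogY
  have hg0 : 0 ≤ L ^ (2 * w + 5) * (128 * L / B) ^ (η / 4) := by positivity
  have hav : av (PP N) (fun T => (‖UU P Nn lo hi θ T‖ ^ 2) ^ k) ≤
      (1000 * (N : ℝ) ^ 2 * L ^ (2 * w + 5) * (128 * L / B) ^ (η / 4)) ^ k := by
    have h1 : av (PP N) (fun T => (‖UU P Nn lo hi θ T‖ ^ 2) ^ k) =
        av (PP N) (fun T => ‖UU P Nn lo hi θ T‖ ^ (2 * k)) :=
      av_congr fun T _ => by rw [pow_mul]
    rw [h1]
    refine hconc.trans ?_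
    apply pow_le_pow_left₀ (by positivity)
    have h2 : ((H : ℝ) * Y) ^ 2 ≤ (N : ℝ) ^ 2 := by gcongr
    calc 1000 * ((H : ℝ) * Y) ^ 2 * L ^ (2 * w + 5) * (128 * L / B) ^ (η / 4)
        = 1000 * (L ^ (2 * w + 5) * (128 * L / B) ^ (η / 4)) * ((H : ℝ) * Y) ^ 2 := by ring
      _ ≤ 1000 * (L ^ (2 * w + 5) * (128 * L / B) ^ (η / 4)) * (N : ℝ) ^ 2 := by
          apply mul_le_mul_of_nonneg_left h2 (by positivity)
      _ = 1000 * (N : ℝ) ^ 2 * L ^ (2 * w + 5) * (128 * L / B) ^ (η / 4) := by ring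
  have hmark := markov_pow (S := PP N) (F := fun T => ‖UU P Nn lo hi θ T‖ ^ 2)
    (c := t ^ 2) k (fun T _ => by positivity) (by positivity) hav
  rw [← div_pow] at hmark
  refine le_trans (pr_mono ?_) hmark
  intro T _ hT
  rw [hUU T] at hT
  exact pow_le_pow_left₀ ht.le hT.le 2

end Pool.Agent.Helper51.EA
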